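import Pool.Agent.MWGX.DefsB

/-!
# MWGX, part B: the doubling pentagon with a gap (rows)

MP_23468a_al.  Many rows are twins of rows of MWGN / MWGQ (tables mwgn, mwgq: the files are good
templates).  The exchange with a gap: `w = p gL F A G B H`, `w' = p gR F A G B H` (`Ex n c`), all letters of
`G` occur at least twice, so `Z, A, B, G` contain no simple letter.
-/

set_option autoImplicit false

namespace Pool.Agent.MWGX

open Pool.Agent.Helper14_MV Pool.Agent.Helper2_MV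
open Pool.Agent.MWK (pre)
open Pool.Agent.MWF (gaml)
open Pool.Agent.MWGN (nn Nm WC WT Tau Ns nl sg)
open Pool.Agent.MWGQ (pw Gn E0 A0 P0 bd kr krl Rs)
open Pool.Agent.MWGR (X It Kaba F1 Dm Ec Es Ea Al0 Rh FE)

/-! ### what `β` keeps -/

/-- XCG (easy-medium, uses XCH).  XCH for arbitrary different letters.
Proof.  `RR.sub` with `e ↦ 0`, `x ↦ 1`, `y ↦ 2`, `a ↦ 3`, `d ↦ d + 4` for the other letters; XCH; then
`0 ↦ e`, `1 ↦ x`, `2 ↦ y`, `3 ↦ a`, `d ↦ d - 4` for `d ≥ 4` (the composition is the identity). -/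
def XcgStmt : Prop := ∀ (n : ℕ) (β : FIC) (δ : ℕ), Gn n β → It n (RR β) → Dl n β δ →
  ∀ (e x y a i j k i' j' k' : ℕ) (T T' : List ℕ), [e, x, y, a].Nodup → x ∈ T → y ∈ T → x ∈ T' →
    y ∈ T' → e ∉ T → a ∉ T → e ∉ T' → a ∉ T' →
    RR β (List.replicate i e ++ x :: (List.replicate j e ++ y :: (List.replicate k e ++ a :: T)))
      (List.replicate i' e ++ y :: (List.replicate j' e ++ x :: (List.replicate k' e ++ a :: T'))) →
      ∀ c : ℕ, j ≡ c [MOD δ] →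
        RR β (List.replicate n e ++ x :: (List.replicate (n + c) e ++
            y :: (List.replicate n e ++ a :: T)))
          (List.replicate (n + c) e ++ y :: (List.replicate (n + (n - 1) * c) e ++
            x :: (List.replicate (n + c) e ++ a :: T')))

/-- NOE (medium, uses MWGN.NOA).  Literal form with the gap letter.
Proof.  NOA: `w.filter (∈ nl) = P ++ a :: tlN ..` with `P = [x, y]` (`nn w x y = 1`) or `P = [y, x]`.
`w = pre w a ++ a :: B` (`MWK.mem_split`), `a ∉ pre w a`, and `a ∉ P`: so `(pre w a).filter = P` and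
`B.filter (∈ nl) = tlN`.  `e ∉ B` since all `e` are in front of `a`: `B.filter (= e or ∈ nl) = tlN`.  The list
`(pre w a).filter (= e or ∈ nl)` without the letters `e` is `P`: it is `e^i1 x e^i2 y e^i3` resp. with `y, x`;
`i1`, `i1 + i2` are the numbers of `e` in front of the first and the second light letter. -/
def NoeStmt : Prop := ∀ (ν : Nm) (e : ℕ) (τ : List ℕ) (m nc : ℕ), Ns ν m → Tau τ m → m ≤ nc →
  e ∉ nl ν m → ∀ w : List ℕ, WC ν m nc w → WT ν τ m w → nn w e ν.a = w.count e →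
    ∃ (i1 i2 i3 i j : ℕ) (c f : ℕ → ℕ), 1 ≤ i ∧ 1 ≤ j ∧ (∀ r < m, 2 ≤ c r) ∧ (∀ r ≤ m, 1 ≤ f r) ∧
      (∃ P : List ℕ, (P = [ν.x, ν.y] ∨ P = [ν.y, ν.x]) ∧
        w.filter (fun d => decide (d ∈ nl ν m)) = P ++ ν.a :: tlN ν τ m i j c f) ∧
      (nn w ν.x ν.y = 1 → i1 = nn w e ν.x ∧ i1 + i2 = nn w e ν.y ∧
        w.filter (fun d => decide (d = e ∨ d ∈ nl ν m)) =
          List.replicate i1 e ++ ν.x :: (List.replicate i2 e ++ ν.y :: (List.replicate i3 e ++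
            ν.a :: tlN ν τ m i j c f))) ∧
      (nn w ν.x ν.y ≠ 1 → i1 = nn w e ν.y ∧ i1 + i2 = nn w e ν.x ∧
        w.filter (fun d => decide (d = e ∨ d ∈ nl ν m)) =
          List.replicate i1 e ++ ν.y :: (List.replicate i2 e ++ ν.x :: (List.replicate i3 e ++
            ν.a :: tlN ν τ m i j c f)))

/-- RNG (medium).  Renaming.  Twin of MWGQ.REN, with one more letter `e ↦ E`
(`(pw k u).flatMap f = pw k (u.flatMap f)`). -/
def RngStmt : Prop := ∀ (n : ℕ) (β : FIC) (ν : Nm) (e : ℕ) (τ : List ℕ) (m : ℕ), Tau τ m →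
  (e :: nl ν m).Nodup →
    RR β (gL n 1 [e] [ν.x] [ν.y] ++ krl n ν τ m) (gR n 1 [e] [ν.x] [ν.y] ++ krl n ν τ m) →
      Kag n β τ m

/-- SPG (medium-strong, uses OXV, MWGQ.WCV, NOE, XCG, MWGQ.NOR, MWGQ.NOB, MWGN.DST, RNG).  **The
special order is kept by `β`.**
Proof.  `w'` satisfies `WC`, `WT`, `Rs` (WCV) and `nn w' e a = w'.count e` (OXV, `e ≠ a`).  Suppose
`nn w' x y ≠ 1`.  NOE for `w` (numbers `i, j, c, f`) and for `w'` (`i', j', c', f'`);
`RR.filter (fun d => decide (d = e ∨ d ∈ nl ν m))`; XCG with gap `1`: the label difference is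
`i2 = nn w e y - nn w e x ≡ 1 [MOD δ]`; `x, y ∈ tlN` (`i, j ≥ 1`), `e, a ∉ tlN` (`e ∉ nl`, DST: the names
are different).  So `gL n 1 [e] [x] [y] ++ a :: tlN .. ~ gR n 1 [e] [x] [y] ++ a :: tlN' ..` (`pw_one`).
NOR and `Rs`: `i, j, c r, f r ≡ 1`, the same for `w'`; NOB with `P = gL ..`, `P = gR ..`: both tails become
`krl n ν τ m`.  RNG: `Kag`, excluded. -/
def SpgStmt : Prop := ∀ (n : ℕ) (β : FIC) (δ : ℕ), Gn n β → It n (RR β) → Dl n β δ →
  ¬ E0 n β → ¬ P0 n β → ¬ A0 n β → ∀ (ν : Nm) (e : ℕ) (τ : List ℕ) (m nc : ℕ), Ns ν m → Tau τ m →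
    m ≤ nc → nc ≤ m + 1 → e ∉ nl ν m → ¬ Kag n β τ m → ∀ w w' : List ℕ, RR β w w' →
      WC ν m nc w → WT ν τ m w → Rs n ν m nc w → GE ν e w → LG ν e δ w → nn w ν.x ν.y = 1 →
        nn w' ν.x ν.y = 1

/-- MIA (medium-strong, uses MWGQ.PWX).  `A0` makes the pair adjacent.
Proof.  This is the claim in the proof of MWGQ.KAR (template: `Helper44_MWGQ/KAR.lean`):
`Q A U bd_m L_m V .. ~ Q A U bd_m L_m I V ..` for `I = pw n U` and every word `Q` with the factor `U`.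
`T = A U bd_m L_m U^(n-1)`, `R = B ++ tails`. -/
def MiaStmt : Prop := ∀ (n : ℕ) (β : FIC), Gn n β → A0 n β → ∀ (m : ℕ) (τ : List ℕ), Tau τ m →
  ∀ (U V A B : List ℕ) (S L C : ℕ → List ℕ), ∃ T R : List ℕ, ∀ Q1 Q2 : List ℕ,
    RR β ((Q1 ++ (U ++ Q2)) ++ kr n U V A B S L C τ m)
      ((Q1 ++ (U ++ Q2)) ++ (T ++ (U ++ (V ++ R))))

/-- MIP (medium-strong, uses MWGQ.PWX).  `P0` makes the pair adjacent.
Proof.  The claim in the proof of MWGQ.KPR (template: `Helper19_MWGQ/KPR.lean`):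
`Q A U bd_m L_m V .. ~ Q A U J R_0` for `J = pw n V` and every word `Q` with the factor `V`.  `T = A`,
`R = V^(n-1) R_0`. -/
def MipStmt : Prop := ∀ (n : ℕ) (β : FIC), Gn n β → P0 n β → ∀ (m : ℕ) (τ : List ℕ), Tau τ m →
  ∀ (U V A B : List ℕ) (S L C : ℕ → List ℕ), ∃ T R : List ℕ, ∀ Q1 Q2 : List ℕ,
    RR β ((Q1 ++ (V ++ Q2)) ++ kr n U V A B S L C τ m)
      ((Q1 ++ (V ++ Q2)) ++ (T ++ (U ++ (V ++ R))))

/-- KEG (easy-medium, uses MIA, MIP).  `A0` or `P0`, together with `Es 1`, imply `Kag`.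
Proof.  `gL n 1 E U V` and `gR n 1 E U V` have the factors `U` and `V`.  `gL kr ~ gL T U V R ~ gR T U V R ~
gR kr`; the middle step is `Es n 1` with `0 ↦ E`, `1 ↦ U`, `2 ↦ V`, `3 ↦ T` (`flat_l`, `flat_r`), `R` behind. -/
def KegStmt : Prop := ∀ (n : ℕ) (β : FIC), Gn n β → Es n 1 (RR β) → (A0 n β ∨ P0 n β) →
  ∀ (m : ℕ) (τ : List ℕ), Tau τ m → Kag n β τ m

/-- VCG (medium, uses OXV, LBW, MWGQ.WCV, SPG, KEG).  `β` keeps `KB` and `KC`.
Proof.  `¬ A0`, `¬ P0` (KEG), `¬ E0` (`E0` implies `A0`: append `[2, 1]`).  `Ns N1 m`,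
`Ns (N2 m) (m + 1)`: explicit numbers.  `WC`, `WT`, `Rs` by WCV (level 2: `WC`, `Rs` with `m + 1`, `m + 2`;
`WT` with `m`), `GE` by OXV, `LG` by LBW (`(d, q, s) = (5, 1, 2)`, `(5, 0, 2)`, `(6, L (m+1), S m)`,
`(6, L m, S m)`).  Orders: SPG for `N1`, `e = 5`, `nc = m`, and for `N2 m`, `e = 6`, `nc = m + 1` (`wc_mono`,
`rs_mono`); `5 ∉ nl N1 m`, `6 ∉ nl (N2 m) m`. -/
def VcgStmt : Prop := ∀ (n : ℕ) (β : FIC) (δ : ℕ), Gn n β → It n (RR β) → Dl n β δ →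
  Es n 1 (RR β) → ∀ (τ : List ℕ) (m : ℕ), Tau τ m → ¬ Kag n β τ m → ∀ w w' : List ℕ, RR β w w' →
    (KB n δ τ m w → KB n δ τ m w') ∧ (KC n δ τ m w → KC n δ τ m w')

/-! ### steps -/

/-- GLG (medium-strong).  **Exchange: positions relative to a light letter.**  The zero, one and full
values are kept if `n ≥ 2`.
Proof.  `s ∉ Z, A, B, G`.  `q ∈ p`: both `pre` are `pre p q`; full: if `d ∈ Z` it fails in both words, if
`d ∉ Z` the counts are equal.  `q ∉ p`.  `q ∉ Z` (as in EXL).  `q ∉ A, B`: both are `p ++ (gL, gR) ++ pre R q`;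
if `d ∈ Z` both numbers are `≥ 3`, and the rest behind the first `q` is the same.  `q ∈ A` or `q ∈ B`:
exactly one of them, `s ∈ F` (otherwise two `q` in front of `s`), `A G B H` is behind `s`: `d ∉ A, B`.  Both
numbers are `p.count d + k Z.count d` with `k ≥ n ≥ 2` (`gL`: `k = n` for `A`, `2n + c` for `B`; `gR`: `n + c` for `B`,
`2n + nc` for `A`); so if `d ∉ Z` they are equal and the counts are equal; if `d ∈ Z` both are `≥ 2`, and a
further power of `Z` is behind `q` in both words, so not full. -/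
def GlgStmt : Prop := ∀ (n c : ℕ) (p Z A B F G H w w' : List ℕ), 2 ≤ n →
  Ex n c p Z A B F G H w w' → (∀ d ∈ G, 2 ≤ w.count d) → ∀ d q s : ℕ, w.count s = 1 → q ≠ s →
    d ≠ s → nn w q s = 1 → nn w d s = w.count d →
      (nn w d q = 0 ↔ nn w' d q = 0) ∧ (nn w d q = 1 ↔ nn w' d q = 1) ∧
        (nn w d q = w.count d ↔ nn w' d q = w'.count d)

/-- WCG (medium, uses EXS, EXL, GLG).  **Exchange: the conditions.**  Both directions.
Proof.  First direction: counts: EXS.  Fields with `a`, `b`, `S i`: `OX` (`d ≠ s` by the counts; if `d = s` the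
claim is trivial).  `xl`, `yl`, `cl0`, `cl1`: GLG with `q = L i`, `s = b` (`lb`, `xb`, `yb`, `cb`).  `GE`: `OX`.
`LG`: EXL with `d = e`, `s = a`, `q = y` and `q = x` (`ya`, `xa`, `GE.ea`), `δ ∣ n`.  `Rs`: EXS.  Second
direction: the same (`OX.symm`; the assumptions of GLG, EXL hold for `w` by `OX`). -/
def WcgStmt : Prop := ∀ (n c δ : ℕ) (p Z A B F G H w w' : List ℕ), 2 ≤ n → δ ∣ n →
  Ex n c p Z A B F G H w w' → (∀ d ∈ G, 2 ≤ w.count d) →
    ∀ (ν : Nm) (e : ℕ) (τ : List ℕ) (m M nc : ℕ), nc ≤ M + 1 → ∀ v v' : List ℕ,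
      ((v = w ∧ v' = w') ∨ (v = w' ∧ v' = w)) → WC ν M nc v → WC ν M nc v' ∧
        (WT ν τ m v → WT ν τ m v') ∧ (GE ν e v → GE ν e v') ∧
          (GE ν e v → LG ν e δ v → LG ν e δ v') ∧ (Rs n ν M nc v → Rs n ν M nc v')

/-- SPY (medium, uses EXS, EXO).  **Exchange: the special order.**
Proof.  EXO with `q1 = x`, `q2 = y`, `s = a` (`xa`, `ya`).  First part: if the order changes then `x ∈ A`,
`y ∈ B`.  Second part: if it changes then `x ∈ B`, `y ∈ A`, `a ∈ F`.  Let `μ = L 0`: in `w'` all `x` are in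
front of the first `μ` (`xl`), in particular the `x` in the second `B`; so `p gR F A G` is in front of it
and contains `y` twice (`gR` and `A`): contradiction to `yl`. -/
def SpyStmt : Prop := ∀ (n c : ℕ) (p Z A B F G H w w' : List ℕ), 1 ≤ n →
  Ex n c p Z A B F G H w w' → (∀ d ∈ G, 2 ≤ w.count d) → ∀ (ν : Nm) (M nc : ℕ), WC ν M nc w →
    WC ν M nc w' →
      (nn w ν.x ν.y = 1 → ¬ (ν.x ∈ A ∧ ν.y ∈ B) → nn w' ν.x ν.y = 1) ∧
      (nn w' ν.x ν.y = 1 → nn w ν.x ν.y = 1)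

/-- MPG (medium).  **Main case, positions.**  Twin of MWGN.MPO; `E` (in MWGN.MPO: `X Y`) contains all
letters of `A` and of `B`, its letters occur twice.
Proof.  `a, b, S i ∉ E, A, B, G`.  `a ∈ p` is impossible: then `x, y ∈ p` (`xa`, `ya`), the second `A`
contains `x`, so it is (up to this `x`) in front of the first `μ = L 0` (`xl`), and `E ∋ y` is in front of
it: two `y` in front of `μ`, contradiction to `yl`.  `a ∈ H`: two `x` in front of `a` (`E`, `A`).  So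
`a ∈ F`; `p`, `E` are in front of `a`, so `L i ∉ p, E, A, B` (`l0`).  `L i ∉ F` (otherwise the `x` in `A` is
behind the first `L i`).  If `L i ∉ G` then the first `L i` is in `H`, and `y` occurs twice in front of it
(`E`, `B`).  So `L i ∈ G`, the formula for `pre w (L i)`.  `b ∈ p, F` is impossible (`lb`: a `L i` in front
of `b`), so `b ∈ H` and `G.count (L i) ≤ nn w (L i) b = 1`.  Contents: `cl0`, `cl1` (`j = i + 1` gives
`C i ∉ H`). -/
def MpgStmt : Prop := ∀ (ν : Nm) (m nc : ℕ), nc ≤ m + 1 → ∀ (p E F A G B H w : List ℕ),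
  w = p ++ (E ++ (F ++ (A ++ (G ++ (B ++ H))))) → (∀ d ∈ G, 2 ≤ w.count d) →
    (∀ d ∈ E, 2 ≤ w.count d) → (∀ d ∈ A, d ∈ E) → (∀ d ∈ B, d ∈ E) →
      WC ν m nc w → ν.x ∈ A → ν.y ∈ B →
        ν.a ∈ F ∧ ν.b ∈ H ∧
        (∀ i ≤ m + 1, ν.L i ∉ p ∧ ν.L i ∉ E ∧ ν.L i ∉ F ∧ ν.L i ∉ A ∧ ν.L i ∉ B ∧
          G.count (ν.L i) = 1 ∧ pre w (ν.L i) = p ++ (E ++ (F ++ (A ++ pre G (ν.L i))))) ∧
        (∀ i < nc, ν.C i ∉ H ∧ (∀ j ≤ i, ν.C i ∉ pre G (ν.L j)) ∧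
          (∀ j, i < j → j ≤ m + 1 → ν.C i ∈ pre G (ν.L j)))

/-- HZG (medium, uses MPG).  Twin of MWGN.HZE: a factor `K` of `H` which contains `z = L m` and
`z' = L (m+1)` contains the first light `μ` of level 2, which is not in `G`.
Proof.  MPG for `N1`: `z' ∈ G`.  `nn w z μ = w.count z`, `nn w z' μ = 1` (`c2.xl`, `c2.yl`, `i = 0`).  The
`z ∈ K` is in front of the first `μ`, so `μ ∉ p, E, F, A, G, B, H1`; if `μ ∉ K` then `K ∋ z'` is completely in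
front of the first `μ`, and `z'` occurs twice in front of it (`G`, `K`): contradiction. -/
def HzgStmt : Prop := ∀ (m : ℕ) (p E F A G B H H1 K H2 w : List ℕ),
  w = p ++ (E ++ (F ++ (A ++ (G ++ (B ++ H))))) → (∀ d ∈ G, 2 ≤ w.count d) →
    (∀ d ∈ E, 2 ≤ w.count d) → (∀ d ∈ A, d ∈ E) → (∀ d ∈ B, d ∈ E) → WC N1 m m w →
      WC (N2 m) (m + 1) (m + 2) w → 0 ∈ A → 1 ∈ B → H = H1 ++ (K ++ H2) → N1.L m ∈ K →
        N1.L (m + 1) ∈ K → (N2 m).L 0 ∈ K ∧ (N2 m).L 0 ∉ G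

/-- CVK (medium).  **Covering lemma.**  Lights `l 0, .., l M` in this order, pins `g k` (`k < N`) with
at most one light each, contents `u k` without lights.
Proof.  For `j ≤ M` let `k j` be the least `k < N` with `l j ∈ g k` (it exists; `l j ∉ u i`).  The first
occurrence of `l j` is in this pin: `pre (ghc g u N) (l j) = (part before g (k j)) ++ pre (g (k j)) (l j)`.  For
`i < j`, `l i` occurs in it, so `k i ≤ k j`, and `k i ≠ k j` (at most one light).  So `k` is strictly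
increasing: `j ≤ k j` and `M - j ≤ k M - k j`, `k M ≤ N - 1`. -/
def CvkStmt : Prop := ∀ (N M : ℕ) (g u : ℕ → List ℕ) (l : ℕ → ℕ),
  (∀ j ≤ M, l j ∈ ghc g u N) → (∀ i j, i < j → j ≤ M → l i ∈ pre (ghc g u N) (l j)) →
    (∀ i ≤ N, ∀ j ≤ M, l j ∉ u i) → (∀ i < N, ∀ j j', j < j' → j' ≤ M → ¬ (l j ∈ g i ∧ l j' ∈ g i)) →
      ∀ j ≤ M, ∃ k < N, l j ∈ g k ∧ j ≤ k ∧ M + k + 1 ≤ N + j

/-- CVG (medium-strong, uses MPG, CVK).  **Main case, covering.**  Twin of MWGN.MCV.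
Proof.  CVK with `M := m + 1`, `l = ν.L`.  Members, counts: MPG.  Order: `i < j ≤ m + 1`, `i < nc`:
`C i ∈ pre G (L j)`, `C i ∉ pre G (L i)`, so `L i ∈ pre G (L j)` (`MWK.pre_of_count`); the only other pair is
`i = m`, `j = m + 1`, `nc = m`: assumption.  Contents: `L j ∈ u i` would give `2 ≤ G.count (L j)`.  Pins:
`L j, L j' ∈ g i`, `j < j'`, `j < nc`: `G = U ++ g i ++ V`, `L j, L j' ∉ U` (count 1),
`pre G (L j) = U ++ pre (g i) (L j)`, the same for `j'`; `C j ∈ pre G (L j')`, `C j ∉ pre G (L j)`: `C j ∉ U`,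
`C j ∈ g i`, so `C j ∈ H`, contradiction to MPG; `j = m`, `nc = m`: assumption. -/
def CvgStmt : Prop := ∀ (ν : Nm) (m nc : ℕ), m ≤ nc → nc ≤ m + 1 → ∀ (p E F A G B H w : List ℕ),
  w = p ++ (E ++ (F ++ (A ++ (G ++ (B ++ H))))) → (∀ d ∈ G, 2 ≤ w.count d) →
    (∀ d ∈ E, 2 ≤ w.count d) → (∀ d ∈ A, d ∈ E) → (∀ d ∈ B, d ∈ E) →
      WC ν m nc w → ν.x ∈ A → ν.y ∈ B → ∀ (N : ℕ) (g u : ℕ → List ℕ), G = ghc g u N →
        (∀ i < N, ∀ d ∈ g i, d ∈ H) → (∀ i ≤ N, ∀ d ∈ u i, 2 ≤ G.count d) →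
          (nc = m → ∀ i < N, ¬ (ν.L m ∈ g i ∧ ν.L (m + 1) ∈ g i)) →
            (nc = m → ν.L m ∈ pre G (ν.L (m + 1))) →
              ∀ j ≤ m + 1, ∃ k < N, ν.L j ∈ g k ∧ j ≤ k ∧ m + 1 + k + 1 ≤ N + j

/-! ### the words of the pentagon -/

/-- FG1 (medium).  **Form of the instances, level 1.**  Pins: `g i = f (L i)` for `i < m`, and
`g m, g (m+1)` are `f (L m), f (L (m+1))` (`o' = true`) resp. `f (L (m+1)), f (L m)`.  Contents: `u i` is
`pw (n+1) (f (C (i-1)))` for `1 ≤ i ≤ m` (empty for `i = 0`), followed by `pw n (f 6)` resp.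
`pw (n+1) (f 6)` if `i = m`; `u (m+1)`, `u (m+2)` are powers (exponents `≥ 2`) of `f 6`.  Then `f 1` and the
rest `H` (`f 3 ++` tails).
Proof.  `List.flatMap_append`, `flat_rep`, `pw_one`, `(pw k v).flatMap f = pw k (v.flatMap f)`, for `bd` induction
on `m`.  `H` contains `f (L i)` for `i ≤ m + 1` (tails 1; block of `m`), and
`H = H1 ++ f (L m) ++ H2 ++ f (L (m+1)) ++ H3` (block of `m`).  Letters of `u i`: they occur at least twice in
`u i` (`n ≥ 2`), if `d` is in the `C` part or in the `6` part of `u i`. -/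
def Fg1Stmt : Prop := ∀ (n : ℕ), 2 ≤ n → ∀ (τ : List ℕ) (m : ℕ), Tau τ m → ∀ (f : ℕ → List ℕ)
  (o' : Bool), ∃ (g u : ℕ → List ℕ) (H : List ℕ),
    (∀ o : Bool, (w0 n τ m o o').flatMap f = (if o then gL n 1 (f 5) (f 0) (f 1) else
      gR n 1 (f 5) (f 0) (f 1)) ++ (f 2 ++ (f 0 ++ (ghc g u (m + 2) ++ (f 1 ++ H))))) ∧
    (∀ i < m + 2, ∃ H1 H2, H = H1 ++ (g i ++ H2)) ∧
    (∀ i ≤ m + 2, ∀ d ∈ u i, 2 ≤ (u i).count d) ∧
    (o' = false → g m = f (N1.L (m + 1)) ∧ g (m + 1) = f (N1.L m)) ∧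
    (∃ H1 H2 H3, H = H1 ++ (f (N1.L m) ++ (H2 ++ (f (N1.L (m + 1)) ++ H3))))

/-- FG2 (medium).  **Form of the instances, level 2.**  `P` is the image of the part in front of the
pair `L m, L (m+1)`, `F` the image of `1 3 ..` up to `S m` (tails 1), then `f (L m)`, then the image of
`bd .. ++ [(N2 m).L (m+2)]` with the pins `g i = f ((N2 m).L i)` (`i < m + 3`) and the contents
`u (i+1) = pw (n+1) (f ((N2 m).C i))` (`i < m + 2`), `u 0 = u (m+3) = []`, then `f (L (m+1))` and the rest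
`H`.  `H` contains `g i` (tails 2) and the factor `g m ++ g (m+1) ++ g (m+2)` (block of `m` in tails 2). -/
def Fg2Stmt : Prop := ∀ (n : ℕ), 2 ≤ n → ∀ (τ : List ℕ) (m : ℕ), Tau τ m → ∀ (f : ℕ → List ℕ)
  (o : Bool), ∃ (P F H : List ℕ) (g u : ℕ → List ℕ),
    (∀ o' : Bool, (w0 n τ m o o').flatMap f = P ++ ((if o' then
      gL n 1 (f 6) (f (N1.L m)) (f (N1.L (m + 1))) else
        gR n 1 (f 6) (f (N1.L m)) (f (N1.L (m + 1)))) ++ (F ++ (f (N1.L m) ++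
          (ghc g u (m + 3) ++ (f (N1.L (m + 1)) ++ H)))))) ∧
    (∀ i < m + 3, ∃ H1 H2, H = H1 ++ (g i ++ H2)) ∧
    (∀ i ≤ m + 3, ∀ d ∈ u i, 2 ≤ (u i).count d) ∧
    (∃ H1 H2, H = H1 ++ (g m ++ (g (m + 1) ++ (g (m + 2) ++ H2))))

/-- MC1 (medium, uses FG1, CVG).  In `KC` the exchange of `f 0`, `f 1` does not touch `z, z'`.
Proof.  FG1, `p` in front and `q` behind; `E = gL n 1 (f 5) (f 0) (f 1)`, `A = f 0`, `B = f 1`.  The letters of
`G = ghc g u (m+2)` occur twice (pins again in `H`, contents).  Suppose `z = L m ∈ f 0`, `z' = L (m+1) ∈ f 1`: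
`z = (N2 m).x`, `z' = (N2 m).y`.  CVG for `N2 m`, `m := m + 1`, `nc = m + 2`, `N = m + 2`, `j = m + 2`:
`m + 2 ≤ k < m + 2`, contradiction. -/
def Mc1Stmt : Prop := ∀ (n δ : ℕ), 2 ≤ n → ∀ (τ : List ℕ) (m : ℕ), Tau τ m → ∀ (o' : Bool)
  (f : ℕ → List ℕ) (p q : List ℕ), KC n δ τ m (p ++ (w0 n τ m true o').flatMap f ++ q) →
    ¬ (N1.L m ∈ f 0 ∧ N1.L (m + 1) ∈ f 1)

/-- MC2 (medium-strong, uses FG1, CVG, MPG, HZG).  In `KB ∩ KC` the exchange of `f 0`, `f 1` in the word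
with `z' z` does not touch `0, 1`.
Proof.  Suppose `0 ∈ f 0`, `1 ∈ f 1`.  FG1 with `o' = false`; `E, A, B` as in MC1.  CVG for `N1`, `m`, `nc = m`,
`N = m + 2`: no pin contains `z` and `z'` (HZG with `K = g i`: `μ ∈ g i`, but `μ ∉ G ∋ g i`), and `z ∈ pre G z'`
(`nn w z z' = 1`, MPG: `pre w z' = p E F A (pre G z')`, `z ∉ p, E, F, A`).  So `m + 1 + k + 1 ≤ m + 2 + j` and
`j ≤ k`: `k = j`: `z ∈ g m = f (L (m+1))`, `z' ∈ g (m+1) = f (L m)`.  `H = H1 f(L m) H2 f(L (m+1)) H3`: in `H`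
there is `z'` and behind it `z`.  All `z` are in front of the first `μ = (N2 m).L 0` (`c2.xl`), so this `z'`
and the `z' ∈ G` are in front of it: contradiction to `nn w z' μ = 1` (`c2.yl`). -/
def Mc2Stmt : Prop := ∀ (n δ : ℕ), 2 ≤ n → ∀ (τ : List ℕ) (m : ℕ), Tau τ m → ∀ (f : ℕ → List ℕ)
  (p q : List ℕ), KB n δ τ m (p ++ (w0 n τ m true false).flatMap f ++ q) →
  KC n δ τ m (p ++ (w0 n τ m true false).flatMap f ++ q) → ¬ (0 ∈ f 0 ∧ 1 ∈ f 1)

/-- MC3 (medium-strong, uses FG2, CVG, MPG, HZG).  In `KB` the exchange of `f z`, `f z'` does not touch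
`0, 1`.
Proof.  Suppose `0 ∈ f (L m)`, `1 ∈ f (L (m+1))`.  FG2 (`o' = true`), `p ++ P` in front; `E = gL n 1 (f 6) ..`,
`A = f (L m)`, `B = f (L (m+1))`, `N = m + 3`.  No pin contains `z` and `z'` (HZG).  `z, z' ∈ G` (MPG) are
different (`nn w z μ ≥ 2`, `nn w z' μ = 1`).  If `z ∈ pre G z'`: CVG for `N1`, `nc = m`: `z ∈ g k` with
`m ≤ k < m + 3`, `z' ∈ g k'` with `m + 1 ≤ k' < m + 3`.  Otherwise `z' ∈ pre G z` (`MWK.pre_total`): CVG for the
names with `L m` and `L (m+1)` exchanged (`WC ν m m w` holds because for `nc = m` all conditions are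
symmetric in `L m`, `L (m+1)`, see MWGN.MC3).  In both cases `z` and `z'` are in
`K = g m ++ g (m+1) ++ g (m+2)`, a factor of `H` (FG2): HZG: `μ ∈ K`, `μ ∉ G`, but the pins are in `G`. -/
def Mc3Stmt : Prop := ∀ (n δ : ℕ), 2 ≤ n → ∀ (τ : List ℕ) (m : ℕ), Tau τ m → ∀ (o : Bool)
  (f : ℕ → List ℕ) (p q : List ℕ), KB n δ τ m (p ++ (w0 n τ m o true).flatMap f ++ q) →
    ¬ (0 ∈ f (N1.L m) ∧ 1 ∈ f (N1.L (m + 1)))

/-- CLG (medium, uses FG1, FG2, WCG, SPY, MC1, MC2, MC3).  **The closure properties.**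
Proof.  FG1 gives `Ex n 1 p (f 5) (f 0) (f 1) (f 2) G (H ++ q)` for the words with `o = true`, `false`; FG2 gives
`Ex n 1 (p ++ P) (f 6) (f (L m)) (f (L (m+1))) F G (H ++ q)` for `o' = true`, `false`; the letters of `G` occur
twice.  `K0`: WCG for `N1` (`e = 5`, `M = m`, `nc = m`) and `N2 m` (`e = 6`, `M = m + 1`, `nc = m + 2`).  Orders:
SPY for `N1` and for `N2 m`; the forward direction uses MC1 (`KC`, level 1 step, order `z, z'`), MC2 and
MC1 (`KB ∩ KC`), MC3 (`KB`, level 2 step, order `0, 1`). -/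
def ClgStmt : Prop := ∀ (n δ : ℕ), 2 ≤ n → δ ∣ n → ∀ (τ : List ℕ) (m : ℕ), Tau τ m →
  ∀ (f : ℕ → List ℕ) (p q : List ℕ),
  (∀ o' : Bool, KC n δ τ m (p ++ (w0 n τ m true o').flatMap f ++ q) ↔
    KC n δ τ m (p ++ (w0 n τ m false o').flatMap f ++ q)) ∧
  (∀ o : Bool, KB n δ τ m (p ++ (w0 n τ m o true).flatMap f ++ q) ↔
    KB n δ τ m (p ++ (w0 n τ m o false).flatMap f ++ q)) ∧
  ((KB n δ τ m (p ++ (w0 n τ m true false).flatMap f ++ q) ∧
      KC n δ τ m (p ++ (w0 n τ m true false).flatMap f ++ q)) ↔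
    (KB n δ τ m (p ++ (w0 n τ m false false).flatMap f ++ q) ∧
      KC n δ τ m (p ++ (w0 n τ m false false).flatMap f ++ q)))

/-- SA1 (medium-strong, uses MWGN.PRF, MWGQ.PRB).  The word `w0 n τ m true true`, level 1.  Twin of
MWGQ.SA1 (template: `Helper32_MWGQ/SA1.lean`).
Proof.  The word is `5^n 0 5^(n+1) 1 5^n 2 0 bd 6^n (L m) 6^(n+1) (L (m+1)) 6^n 1 3 (tails 1) 4 (tails 2)`.
`nn w 5 0 = n`, `nn w 5 1 = 2n + 1`; all `5` are in front of `2`; the letters `6` are between `2` and `3`. -/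
def Sa1Stmt : Prop := ∀ (n δ : ℕ), 2 ≤ n → δ ∣ n → ∀ (τ : List ℕ) (m : ℕ), Tau τ m →
  WC N1 m m (w0 n τ m true true) ∧ WT N1 τ m (w0 n τ m true true) ∧ GE N1 5 (w0 n τ m true true) ∧
    LG N1 5 δ (w0 n τ m true true) ∧ Rs n N1 m m (w0 n τ m true true) ∧
      nn (w0 n τ m true true) 0 1 = 1

/-- SA2 (medium-strong, uses MWGN.PRF, MWGQ.PRB).  The same for level 2 (template:
`Helper1_MWGQ/SA2.lean`).  `nn w 6 (L m) = n`, `nn w 6 (L (m+1)) = 2n + 1`. -/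
def Sa2Stmt : Prop := ∀ (n δ : ℕ), 2 ≤ n → δ ∣ n → ∀ (τ : List ℕ) (m : ℕ), Tau τ m →
  WC (N2 m) (m + 1) (m + 2) (w0 n τ m true true) ∧ WT (N2 m) τ m (w0 n τ m true true) ∧
    GE (N2 m) 6 (w0 n τ m true true) ∧ LG (N2 m) 6 δ (w0 n τ m true true) ∧
      Rs n (N2 m) (m + 1) (m + 2) (w0 n τ m true true) ∧
        nn (w0 n τ m true true) (N1.L m) (N1.L (m + 1)) = 1

/-- PEG (medium, uses DGR, VCG, SA1, SA2, CLG).  **Doubling pentagon with a gap.**  Twin of MWGQ.DPE.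
Proof.  Suppose `¬ Kag`.  `δ` of DGR, `δ ≠ 1`, `δ ∣ n`, so `n ≥ 2`.  `pen` with `Kb = KB n δ τ m`,
`Kc = KC n δ τ m`: VCG (`MWF.le_gaml`), `u = w0 n τ m true true`, `v = w0 n τ m false true`; the chain
`u ~ w0 true false` (`gaml KB`) `~ w0 false false` (both) `~ v` (`gaml KB`) by CLG and `MWF.RR_gaml`;
SA1, SA2.  `nn v 0 1 = 0` because `v = 5^(n+1) 1 ..`. -/
def PegStmt : Prop := ∀ (n : ℕ) (β : FIC), ModF β → Gn n β → It n (RR β) → ¬ Dm n 1 (RR β) →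
  Es n 1 (RR β) → ∀ (m : ℕ) (τ : List ℕ), Tau τ m → Kag n β τ m

/-! ### from kappa to `FE` -/

/-- CTX (strong, uses MWGQ.PWX).  **Normal form of a context.**  This is the proof of MWGQ.CMW
(template: `Helper69_MWGQ/CMW.lean`) with an arbitrary word `V` in front which contains `x` and `y`;
everything depends on the set of the letters of `V` only.
Proof.  `U := V ++ q ++ [x]`, `D u := u.flatMap (fun d => replicate (n+1) d)`.  (i) In
`U ++ c ++ y :: r` every occurrence of a letter `d` in `c` with `d ∉ r` or not the first occurrence in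
`U ++ c` may be replaced by `d^(n+1)` (PWX (2), resp. `I1`).  (ii) Let `z_0, .., z_k` be the letters of `c`
which do not occur in `U` and occur in `r`, `c = u_0 z_0 u_1 z_1 .. z_k u_(k+1)` with the first
occurrences `z_i`; `u_i ~ D u_i`, `D u ~ pw (n+1) (D u)`.  (iii) `x u_0 ~ (D u_0) x`, `u_(k+1) y ~
y (D u_(k+1))`.  (iv) No `z_i`: first alternative with `A = q ++ D u_0`, `T = r`.  Otherwise
`r' = (D u_(k+1)) r = q_0 z_(σ 0) q_1 .. z_(σ k) q_(k+1)` with the first occurrences of the `z_i` in `r'`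
in the order `τ`: second alternative with `m = k`, `A = q ++ D u_0`, `B = []`, `S (σ j) = q_j`,
`L i = [z_i]`, `C i = D u_(i+1)`, `T = q_(k+1)`. -/
def CtxStmt : Prop := ∀ (n : ℕ) (β : FIC), Gn n β → MWZ.I1 n (RR β) →
  ∀ (V q c r : List ℕ) (x y : ℕ), x ∈ V → y ∈ V →
    MVO.Sys.Mul c (V ++ (q ++ x :: (c ++ y :: r))) →
      (∃ A T : List ℕ, ∀ V' : List ℕ, (∀ d, d ∈ V' ↔ d ∈ V) →
        RR β (V' ++ (q ++ x :: (c ++ y :: r))) (V' ++ (A ++ (x :: y :: T)))) ∨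
      (∃ (m : ℕ) (τ A B : List ℕ) (S L C : ℕ → List ℕ) (T : List ℕ), Tau τ m ∧
        ∀ V' : List ℕ, (∀ d, d ∈ V' ↔ d ∈ V) →
          RR β (V' ++ (q ++ x :: (c ++ y :: r))) (V' ++ (kr n [x] [y] A B S L C τ m ++ T)))

/-- FEW (easy-medium, uses CTX).  All `Kag` and `Es 1` imply `FE 1`.
Proof.  `V = p ++ gL n 1 [x] [a] [b]`, `V' = p ++ gR n 1 [x] [a] [b]` (`pw_one`): the same letters (`n ≥ 1`).
CTX with the pair `a, b` (`x := a`, `y := b`, `c := w`).  First alternative: `Es n 1` with `0 ↦ [x]`,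
`1 ↦ [a]`, `2 ↦ [b]`, `3 ↦ A` (`flat_l`, `flat_r`), `p` in front, `T` behind.  Second: `Kag` with `E = [x]`,
`U = [a]`, `V = [b]`. -/
def FewStmt : Prop := ∀ (n : ℕ) (β : FIC), Gn n β → MWZ.I1 n (RR β) → Es n 1 (RR β) →
  (∀ (m : ℕ) (τ : List ℕ), Tau τ m → Kag n β τ m) → FE n 1 (RR β)

/-- FEP (easy, uses PEG, FEW, DI2).  **The FE pentagon.** -/
def FepStmt : Prop := ∀ (n : ℕ) (β : FIC), ModF β → Gn n β → It n (RR β) → ¬ Dm n 1 (RR β) →
  Es n 1 (RR β) → FE n 1 (RR β)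

end Pool.Agent.MWGX
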