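import Pool.Agent.MWGR.DefsC
import Pool.Agent.MWGQ.Stmts

/-!
# MWGX: necessity of the region without mixing in the gamma world (definitions)

MP_23468a_al, world `xyx ≈ xyx^(n+1)`, period `n`.  `nn w c q` is the number of `c` in front of the
first `q`, `pw k Z` the power of a word, `X k = Z k = 0^k`.  The identities `Kaba`, `F1`, `Dm`, `Ec`,
`Es`, `Ea`, `Al0`, `Rh`, `FE` and the base `BG`, `It` are those of MWGR.  Letters in the words:
`0 = x` (heavy, with all occurrences in front of the simple letter `3`), `1 = a`, `2 = b` (light: one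
occurrence in front of `3`).
-/

set_option autoImplicit false

namespace Pool.Agent.MWGX

open Pool.Agent.Helper14_MV Pool.Agent.Helper2_MV
open Pool.Agent.MWK (pre)
open Pool.Agent.MWF (gaml)
open Pool.Agent.MWGN (nn)
open Pool.Agent.MWGQ (pw Gn)
open Pool.Agent.MWGR (X It Kaba F1 Dm Ec Es Ea Al0 Rh FE)

/-- the tail `|a z b|z` -/
def Ez (n c : ℕ) (S : List ℕ → List ℕ → Prop) : Prop := Ec n c [3, 1, 4, 2, 5, 4] S

/-- `δ` generates the label differences -/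
structure Dl (n : ℕ) (β : FIC) (δ : ℕ) : Prop where
  pos : 1 ≤ δ
  dv : δ ∣ n
  iff : ∀ d, Dm n d (RR β) ↔ δ ∣ d

/-! ### what is kept by all steps -/

/-- counts and positions of the simple letters -/
structure OX (w w' : List ℕ) : Prop where
  c1 : ∀ d, w.count d = 1 ↔ w'.count d = 1
  c2 : ∀ d, 2 ≤ w.count d ↔ 2 ≤ w'.count d
  n0 : ∀ s, w.count s = 1 → ∀ d, d ≠ s → (nn w d s = 0 ↔ nn w' d s = 0)
  n1 : ∀ s, w.count s = 1 → ∀ d, d ≠ s → (nn w d s = 1 ↔ nn w' d s = 1)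
  nc : ∀ s, w.count s = 1 → ∀ d, d ≠ s → (nn w d s = w.count d ↔ nn w' d s = w'.count d)

/-- empty blocks -/
def OB (w w' : List ℕ) : Prop := ∀ s t, w.count s = 1 → w.count t = 1 → ∀ d, d ≠ s → d ≠ t →
  (nn w d s = nn w d t ↔ nn w' d s = nn w' d t)

/-! ### the classes of words -/

/-- `x .. a .. b ..|a..|b..|a..`: simple letters `3`, `4`, `5` -/
structure KK (w : List ℕ) : Prop where
  s3 : w.count 3 = 1
  s4 : w.count 4 = 1
  s5 : w.count 5 = 1
  o43 : nn w 4 3 = 0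
  o54 : nn w 5 4 = 0
  x2 : 2 ≤ w.count 0
  x3 : nn w 0 3 = w.count 0
  a2 : 2 ≤ w.count 1
  a3 : nn w 1 3 = 1
  a40 : nn w 1 4 ≠ 0
  a41 : nn w 1 4 ≠ 1
  a5 : nn w 1 5 ≠ w.count 1
  b2 : 2 ≤ w.count 2
  b3 : nn w 2 3 = 1
  b4 : nn w 2 4 = 1
  b5 : nn w 2 5 = w.count 2

/-- no `a` in the block between `4` and `5` -/
def Ab (w : List ℕ) : Prop := nn w 1 4 = nn w 1 5

/-- the difference of the labels of `b` and `a` is `1` modulo `g` -/
def Lb (g : ℕ) (w : List ℕ) : Prop := nn w 0 2 ≡ nn w 0 1 + 1 [MOD g]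

/-- `x .. a .. b ..|a..z..b..|z..`: simple letters `3`, `5`, light letter `z = 4` between them -/
structure KZ (w : List ℕ) : Prop where
  s3 : w.count 3 = 1
  s5 : w.count 5 = 1
  o53 : nn w 5 3 = 0
  x2 : 2 ≤ w.count 0
  x3 : nn w 0 3 = w.count 0
  a2 : 2 ≤ w.count 1
  a3 : nn w 1 3 = 1
  a5 : nn w 1 5 = w.count 1
  b2 : 2 ≤ w.count 2
  b3 : nn w 2 3 = 1
  b5 : nn w 2 5 = w.count 2
  z2 : 2 ≤ w.count 4
  z3 : nn w 4 3 = 0
  z5 : nn w 4 5 = 1
  az : nn w 1 4 ≠ 1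
  bz : nn w 2 4 = 1

/-- all `a` are in front of the first `z` -/
def Az (w : List ℕ) : Prop := nn w 1 4 = w.count 1

/-! ### exchange with a gap -/

/-- left side of an exchange with gap: `Z^n A Z^(n+c) B Z^n` -/
def gL (n c : ℕ) (Z A B : List ℕ) : List ℕ :=
  pw n Z ++ (A ++ (pw (n + c) Z ++ (B ++ pw n Z)))

/-- right side of an exchange with gap: `Z^(n+c) B Z^(n+(n-1)c) A Z^(n+c)` -/
def gR (n c : ℕ) (Z A B : List ℕ) : List ℕ :=
  pw (n + c) Z ++ (B ++ (pw (n + (n - 1) * c) Z ++ (A ++ pw (n + c) Z)))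

/-- `w`, `w'` are the two words of an exchange in front of `F A G B H` -/
structure Ex (n c : ℕ) (p Z A B F G H w w' : List ℕ) : Prop where
  e : w = p ++ (gL n c Z A B ++ (F ++ (A ++ (G ++ (B ++ H)))))
  e' : w' = p ++ (gR n c Z A B ++ (F ++ (A ++ (G ++ (B ++ H)))))

/-- the part between the later `A` and `B` has no simple letter, or there is one more `A` -/
def Gd (A G H w : List ℕ) : Prop := (∀ d ∈ G, 2 ≤ w.count d) ∨ ∃ H1 H2, H = H1 ++ (A ++ H2)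

/-! ### frame -/

theorem pw_succ (k : ℕ) (u : List ℕ) : pw (k + 1) u = u ++ pw k u := by
  simp [pw, List.replicate_succ]

theorem pw_zero (u : List ℕ) : pw 0 u = [] := by simp [pw]

theorem flat_rep (k c : ℕ) (f : ℕ → List ℕ) : (List.replicate k c).flatMap f = pw k (f c) := by
  induction k with
  | zero => simp [pw]
  | succ k ih => rw [List.replicate_succ, List.flatMap_cons, ih, pw_succ]

theorem count_pw (k d : ℕ) (u : List ℕ) : (pw k u).count d = k * u.count d := by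
  induction k with
  | zero => simp [pw]
  | succ k ih =>
    rw [pw_succ, List.count_append, ih, Nat.succ_mul]
    omega

theorem mem_pw {k d : ℕ} {u : List ℕ} (h : d ∈ pw k u) : d ∈ u := by
  induction k with
  | zero => simp [pw] at h
  | succ k ih =>
    rw [pw_succ, List.mem_append] at h
    rcases h with h | h
    · exact h
    · exact ih h

/-- the two sides of `Ec` under a substitution -/
theorem flat_l (n c : ℕ) (T : List ℕ) (f : ℕ → List ℕ) :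
    (X n ++ 1 :: (X (n + c) ++ 2 :: (X n ++ T))).flatMap f = gL n c (f 0) (f 1) (f 2) ++
      T.flatMap f := by
  simp only [gL, List.flatMap_append, List.flatMap_cons, flat_rep, List.append_assoc]

theorem flat_r (n c : ℕ) (T : List ℕ) (f : ℕ → List ℕ) :
    (X (n + c) ++ 2 :: (X (n + (n - 1) * c) ++ 1 :: (X (n + c) ++ T))).flatMap f =
      gR n c (f 0) (f 1) (f 2) ++ T.flatMap f := by
  simp only [gR, List.flatMap_append, List.flatMap_cons, flat_rep, List.append_assoc]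

/-- instances of `Ea` -/
theorem ex_ea (n c : ℕ) (f : ℕ → List ℕ) (p q : List ℕ) :
    Ex n c p (f 0) (f 1) (f 2) (f 3) (f 4) (f 5 ++ (f 1 ++ q))
      (p ++ (X n ++ 1 :: (X (n + c) ++ 2 :: (X n ++ [3, 1, 4, 2, 5, 1]))).flatMap f ++ q)
      (p ++ (X (n + c) ++ 2 :: (X (n + (n - 1) * c) ++
        1 :: (X (n + c) ++ [3, 1, 4, 2, 5, 1]))).flatMap f ++ q) := by
  constructor
  · rw [flat_l]; simp [List.append_assoc]
  · rw [flat_r]; simp [List.append_assoc]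

/-- instances of `Es` -/
theorem ex_es (n c : ℕ) (f : ℕ → List ℕ) (p q : List ℕ) :
    Ex n c p (f 0) (f 1) (f 2) (f 3) [] q
      (p ++ (X n ++ 1 :: (X (n + c) ++ 2 :: (X n ++ [3, 1, 2]))).flatMap f ++ q)
      (p ++ (X (n + c) ++ 2 :: (X (n + (n - 1) * c) ++
        1 :: (X (n + c) ++ [3, 1, 2]))).flatMap f ++ q) := by
  constructor
  · rw [flat_l]; simp [List.append_assoc]
  · rw [flat_r]; simp [List.append_assoc]

/-- instances of `Ez` -/
theorem ex_ez (n c : ℕ) (f : ℕ → List ℕ) (p q : List ℕ) :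
    Ex n c p (f 0) (f 1) (f 2) (f 3) (f 4) (f 5 ++ (f 4 ++ q))
      (p ++ (X n ++ 1 :: (X (n + c) ++ 2 :: (X n ++ [3, 1, 4, 2, 5, 4]))).flatMap f ++ q)
      (p ++ (X (n + c) ++ 2 :: (X (n + (n - 1) * c) ++
        1 :: (X (n + c) ++ [3, 1, 4, 2, 5, 4]))).flatMap f ++ q) := by
  constructor
  · rw [flat_l]; simp [List.append_assoc]
  · rw [flat_r]; simp [List.append_assoc]

theorem pw_nil (k : ℕ) : pw k ([] : List ℕ) = [] := by simp [pw]

/-- instances of `Kaba` are exchanges with empty gap -/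
theorem ex_kaba (n : ℕ) (f : ℕ → List ℕ) (p q : List ℕ) :
    Ex n 0 p [] (f 0) (f 1) (f 2) (f 3) (f 4 ++ (f 0 ++ q))
      (p ++ ([0, 1, 2, 0, 3, 1, 4, 0] : List ℕ).flatMap f ++ q)
      (p ++ ([1, 0, 2, 0, 3, 1, 4, 0] : List ℕ).flatMap f ++ q) := by
  constructor
  · simp [gL, pw_nil, List.append_assoc]
  · simp [gR, pw_nil, List.append_assoc]

/-- **frame of a pentagon** -/
theorem pen {β : FIC} (hM : ModF β) (Kb Kc : List ℕ → Prop) (hb : β ≤ gaml Kb)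
    (hc : β ≤ gaml Kc) {u v : List ℕ}
    (hs : RR (FIC.sup (FIC.inf (gaml (fun w => Kb w ∧ Kc w)) (gaml Kc)) (gaml Kb)) u v)
    (ht : RR (gaml Kc) u v) (hu : Kb u ∧ Kc u) : Kb v ∧ Kc v := by
  have bK : β ≤ gaml (fun w => Kb w ∧ Kc w) := MWF.le_gaml fun a b h ha =>
    ⟨(MWF.gaml_keep (hb _ _ h)).1 ha.1, (MWF.gaml_keep (hc _ _ h)).1 ha.2⟩
  have bρ : β ≤ FIC.inf (gaml (fun w => Kb w ∧ Kc w)) (gaml Kc) := fun a b h => ⟨bK a b h, hc a b h⟩
  have hle : FIC.inf (gaml (fun w => Kb w ∧ Kc w)) (gaml Kc) ≤ gaml Kc := fun a b h => h.2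
  exact MWF.pent hM bρ hb hc hle (P := fun w => Kb w ∧ Kc w)
    (fun a b h ha => (MWF.gaml_keep h.1).1 ha)
    (fun a b hσ hτ ha => ⟨(MWF.gaml_keep hσ).1 ha.1, (MWF.gaml_keep hτ).1 ha.2⟩) hs ht hu

/-- `OX` is symmetric -/
theorem OX.symm {w w' : List ℕ} (h : OX w w') : OX w' w where
  c1 := fun d => (h.c1 d).symm
  c2 := fun d => (h.c2 d).symm
  n0 := fun s hs d hd => (h.n0 s ((h.c1 s).2 hs) d hd).symm
  n1 := fun s hs d hd => (h.n1 s ((h.c1 s).2 hs) d hd).symm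
  nc := fun s hs d hd => (h.nc s ((h.c1 s).2 hs) d hd).symm

/-- `KK` is kept by `OX` -/
theorem OX.kk {w w' : List ℕ} (h : OX w w') (k : KK w) : KK w' where
  s3 := (h.c1 3).1 k.s3
  s4 := (h.c1 4).1 k.s4
  s5 := (h.c1 5).1 k.s5
  o43 := (h.n0 3 k.s3 4 (by norm_num)).1 k.o43
  o54 := (h.n0 4 k.s4 5 (by norm_num)).1 k.o54
  x2 := (h.c2 0).1 k.x2
  x3 := (h.nc 3 k.s3 0 (by norm_num)).1 k.x3
  a2 := (h.c2 1).1 k.a2
  a3 := (h.n1 3 k.s3 1 (by norm_num)).1 k.a3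
  a40 := fun e => k.a40 ((h.n0 4 k.s4 1 (by norm_num)).2 e)
  a41 := fun e => k.a41 ((h.n1 4 k.s4 1 (by norm_num)).2 e)
  a5 := fun e => k.a5 ((h.nc 5 k.s5 1 (by norm_num)).2 e)
  b2 := (h.c2 2).1 k.b2
  b3 := (h.n1 3 k.s3 2 (by norm_num)).1 k.b3
  b4 := (h.n1 4 k.s4 2 (by norm_num)).1 k.b4
  b5 := (h.nc 5 k.s5 2 (by norm_num)).1 k.b5

/-- `Ab` is kept by `OB` -/
theorem OB.ab {w w' : List ℕ} (h : OB w w') (k : KK w) : Ab w ↔ Ab w' :=
  h 4 5 k.s4 k.s5 1 (by norm_num) (by norm_num)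

/-- `KZ` is kept by `OX` up to two conditions -/
theorem OX.kz {w w' : List ℕ} (h : OX w w') (k : KZ w) (ha : nn w' 1 4 ≠ 1) (hb : nn w' 2 4 = 1) :
    KZ w' where
  s3 := (h.c1 3).1 k.s3
  s5 := (h.c1 5).1 k.s5
  o53 := (h.n0 3 k.s3 5 (by norm_num)).1 k.o53
  x2 := (h.c2 0).1 k.x2
  x3 := (h.nc 3 k.s3 0 (by norm_num)).1 k.x3
  a2 := (h.c2 1).1 k.a2
  a3 := (h.n1 3 k.s3 1 (by norm_num)).1 k.a3
  a5 := (h.nc 5 k.s5 1 (by norm_num)).1 k.a5
  b2 := (h.c2 2).1 k.b2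
  b3 := (h.n1 3 k.s3 2 (by norm_num)).1 k.b3
  b5 := (h.nc 5 k.s5 2 (by norm_num)).1 k.b5
  z2 := (h.c2 4).1 k.z2
  z3 := (h.n0 3 k.s3 4 (by norm_num)).1 k.z3
  z5 := (h.n1 5 k.s5 4 (by norm_num)).1 k.z5
  az := ha
  bz := hb

/-- instances of `Dm`, left side -/
theorem flat_dl (n m : ℕ) (f : ℕ → List ℕ) (p q : List ℕ) :
    p ++ (X (n + m) ++ 1 :: (X n ++ [2, 1])).flatMap f ++ q =
      p ++ (pw (n + m) (f 0) ++ (f 1 ++ (pw n (f 0) ++ (f 2 ++ (f 1 ++ q))))) := by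
  simp [List.flatMap_append, List.flatMap_cons, flat_rep, List.append_assoc]

/-- instances of `Dm`, right side -/
theorem flat_dr (n m : ℕ) (f : ℕ → List ℕ) (p q : List ℕ) :
    p ++ (X n ++ 1 :: (X (n + m) ++ [2, 1])).flatMap f ++ q =
      p ++ (pw n (f 0) ++ (f 1 ++ (pw (n + m) (f 0) ++ (f 2 ++ (f 1 ++ q))))) := by
  simp [List.flatMap_append, List.flatMap_cons, flat_rep, List.append_assoc]

/-- instances of `F1`, left side -/
theorem flat_fl (f : ℕ → List ℕ) (p q : List ℕ) :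
    p ++ ([0, 0, 2, 3, 0, 0] : List ℕ).flatMap f ++ q =
      p ++ (f 0 ++ (f 0 ++ (f 2 ++ (f 3 ++ (f 0 ++ (f 0 ++ q)))))) := by
  simp [List.append_assoc]

/-- instances of `F1`, right side -/
theorem flat_fr (n : ℕ) (f : ℕ → List ℕ) (p q : List ℕ) :
    p ++ (([0, 0, 2] ++ (X n ++ [3, 0, 0])) : List ℕ).flatMap f ++ q =
      p ++ (f 0 ++ (f 0 ++ (f 2 ++ (pw n (f 0) ++ (f 3 ++ (f 0 ++ (f 0 ++ q))))))) := by
  simp [List.flatMap_append, List.flatMap_cons, flat_rep, List.append_assoc]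

/-- instances of `Al0`, left side -/
theorem flat_al (f : ℕ → List ℕ) (p q : List ℕ) :
    p ++ ([0, 0, 1, 2, 1] : List ℕ).flatMap f ++ q =
      p ++ (f 0 ++ (f 0 ++ (f 1 ++ (f 2 ++ (f 1 ++ q))))) := by
  simp [List.append_assoc]

/-- instances of `Al0`, right side -/
theorem flat_ar (n : ℕ) (f : ℕ → List ℕ) (p q : List ℕ) :
    p ++ (([0, 0, 1] ++ (X n ++ [2, 1])) : List ℕ).flatMap f ++ q =
      p ++ (f 0 ++ (f 0 ++ (f 1 ++ (pw n (f 0) ++ (f 2 ++ (f 1 ++ q)))))) := by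
  simp [List.flatMap_append, List.flatMap_cons, flat_rep, List.append_assoc]

end Pool.Agent.MWGX
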