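import Pool.Agent.MWGX.StmtsA
import Pool.Agent.MWGN.StmtsB

/-!
# MWGX, part B: the doubling pentagon with a gap (definitions)

Two levels.  Level 1: the pair `0, 1` with the gap letter `5` in front of the simple letter `2`.
Level 2: the pair `L m, L (m+1)` of level 1 with the gap letter `6`.  Level 2 has the `m + 3` lights
`(N2 m).L 0, .., (N2 m).L (m+2)`, its tails form `m + 1` blocks.
-/

set_option autoImplicit false

namespace Pool.Agent.MWGX

open Pool.Agent.Helper14_MV Pool.Agent.Helper2_MV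
open Pool.Agent.MWK (pre)
open Pool.Agent.MWF (gaml)
open Pool.Agent.MWGN (nn Nm WC WT Tau Ns nl sg)
open Pool.Agent.MWGQ (pw Gn E0 A0 P0 bd kr krl Rs)
open Pool.Agent.MWGR (X It Kaba F1 Dm Ec Es Ea Al0 Rh FE)

/-- **kappa with a gap** -/
def Kag (n : ℕ) (β : FIC) (τ : List ℕ) (m : ℕ) : Prop :=
  ∀ (E U V A B : List ℕ) (S L C : ℕ → List ℕ),
    RR β (gL n 1 E U V ++ kr n U V A B S L C τ m) (gR n 1 E U V ++ kr n U V A B S L C τ m)

/-- the gap letter `e` of `ν`: all occurrences in front of `a` -/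
structure GE (ν : Nm) (e : ℕ) (w : List ℕ) : Prop where
  e2 : 2 ≤ w.count e
  ea : nn w e ν.a = w.count e

/-- the label difference of `y` and `x` is `1` modulo `g` -/
def LG (ν : Nm) (e g : ℕ) (w : List ℕ) : Prop := nn w e ν.y ≡ nn w e ν.x + 1 [MOD g]

/-- level 1 -/
def N1 : Nm := ⟨0, 1, 2, 3, fun i => 7 + 6 * i, fun i => 8 + 6 * i, fun i => 9 + 6 * i⟩

/-- level 2 -/
def N2 (m : ℕ) : Nm := ⟨N1.L m, N1.L (m + 1), N1.S m, 4, fun i => 10 + 6 * i, fun i => 11 + 6 * i,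
  fun i => 12 + 6 * i⟩

/-- the conditions without the two special orders -/
structure K0 (n δ : ℕ) (τ : List ℕ) (m : ℕ) (w : List ℕ) : Prop where
  c1 : WC N1 m m w
  t1 : WT N1 τ m w
  g1 : GE N1 5 w
  l1 : LG N1 5 δ w
  r1 : Rs n N1 m m w
  c2 : WC (N2 m) (m + 1) (m + 2) w
  t2 : WT (N2 m) τ m w
  g2 : GE (N2 m) 6 w
  l2 : LG (N2 m) 6 δ w
  r2 : Rs n (N2 m) (m + 1) (m + 2) w

/-- `0` before `1` in front of `2` -/
def KB (n δ : ℕ) (τ : List ℕ) (m : ℕ) (w : List ℕ) : Prop := K0 n δ τ m w ∧ nn w 0 1 = 1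

/-- `L m` before `L (m+1)` -/
def KC (n δ : ℕ) (τ : List ℕ) (m : ℕ) (w : List ℕ) : Prop :=
  K0 n δ τ m w ∧ nn w (N1.L m) (N1.L (m + 1)) = 1

/-- the block behind the simple letter `S i` of level 1 -/
def T1 (n m i : ℕ) : List ℕ :=
  if i = m then N1.L m :: (bd n (sg (N2 m).L) (sg (N2 m).C) (m + 2) ++
    [(N2 m).L (m + 2), N1.L (m + 1)]) else [N1.L i]

/-- the block behind the simple letter `S i` of level 2 -/
def T2 (m i : ℕ) : List ℕ :=
  if i = m then [(N2 m).L m, (N2 m).L (m + 1), (N2 m).L (m + 2)] else [(N2 m).L i]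

/-- the rest of the words -/
def ww (n : ℕ) (τ : List ℕ) (m : ℕ) (o : Bool) : List ℕ :=
  2 :: 0 :: (bd n (sg N1.L) (sg N1.C) m ++ ((if o then gL n 1 [6] [N1.L m] [N1.L (m + 1)] else
    gR n 1 [6] [N1.L m] [N1.L (m + 1)]) ++ 1 :: 3 :: (τ.flatMap (fun i => N1.S i :: T1 n m i) ++
      4 :: τ.flatMap (fun i => (N2 m).S i :: T2 m i))))

/-- the four words: order of `0, 1` and order of `L m`, `L (m+1)` -/
def w0 (n : ℕ) (τ : List ℕ) (m : ℕ) (o o' : Bool) : List ℕ :=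
  (if o then gL n 1 [5] [0] [1] else gR n 1 [5] [0] [1]) ++ ww n τ m o'

/-- `u 0, g 0, u 1, g 1, .., g (N-1), u N` -/
def ghc (g u : ℕ → List ℕ) (N : ℕ) : List ℕ :=
  (List.range N).flatMap (fun i => u i ++ g i) ++ u N

/-- the fields of `WC` are monotone in `m`, `nc` -/
theorem wc_mono {ν : Nm} {M m nc nc' : ℕ} {w : List ℕ} (h : WC ν M nc w) (hm : m ≤ M)
    (hc : nc' ≤ nc) : WC ν m nc' w where
  sa := h.sa
  sb := h.sb
  ob := h.ob
  x2 := h.x2
  y2 := h.y2
  xa := h.xa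
  ya := h.ya
  xb := h.xb
  yb := h.yb
  l2 := fun i hi => h.l2 i (by omega)
  l0 := fun i hi => h.l0 i (by omega)
  lb := fun i hi => h.lb i (by omega)
  c2 := fun i hi => h.c2 i (by omega)
  c0 := fun i hi => h.c0 i (by omega)
  cb := fun i hi => h.cb i (by omega)
  xl := fun i hi => h.xl i (by omega)
  yl := fun i hi => h.yl i (by omega)
  cl0 := fun i hi j hj => h.cl0 i (by omega) j hj
  cl1 := fun i hi j hj hj' => h.cl1 i (by omega) j hj (by omega)

theorem rs_mono {n : ℕ} {ν : Nm} {M m nc nc' : ℕ} {w : List ℕ} (h : Rs n ν M nc w) (hm : m ≤ M)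
    (hc : nc' ≤ nc) : Rs n ν m nc' w where
  x := h.x
  y := h.y
  l := fun i hi => h.l i (by omega)
  c := fun i hi => h.c i (by omega)

/-- the part behind `a` of the literal form (MWGN.NOA) -/
def tlN (ν : Nm) (τ : List ℕ) (m i j : ℕ) (c f : ℕ → ℕ) : List ℕ :=
  List.replicate i ν.x ++
    ((List.range m).flatMap (fun r => ν.L r :: List.replicate (c r) (ν.C r)) ++
      ν.L m :: (List.replicate j ν.y ++ ν.b ::
        τ.flatMap (fun r => ν.S r :: List.replicate (f r) (ν.L r))))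

theorem pw_one (k c : ℕ) : pw k [c] = List.replicate k c := by
  induction k with
  | zero => simp [pw]
  | succ k ih => rw [pw_succ, ih, List.replicate_succ]; rfl

end Pool.Agent.MWGX
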