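import Pool.Agent.MWGX.Defs
import Pool.Agent.MWGP.Stmts

/-!
# MWGX, part A: four pentagons (rows)

MP_23468a_al, gamma world `xyx ≈ xyx^(n+1)`, period `n`, outside `x^2y ≈ x^2yx^n`: a modular variety
satisfies `Dm 1` or `Kaba`, `F1` or `Es 1`, `Es 1` or `Al0` or `Rh`, and `Dm r` or `Ea q` for coprime
`q r = n`.  Every row is self contained, its complete proof is in the docstring.  Words are lists of
naturals, `RR θ l l'` is a congruence stable under substitutions.  Tools: `RR.append`, `RR.sub`,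
`RR.filter`, `RR.symm`, `RR.refl`, `θ.trans`; the lemmas on `pre` in MWK/Defs.lean (`pre_append`,
`pre_append_mem`, `pre_total`, `mem_split`, `pre_mono`, `count_pre_le`, ...);
`nn w c q = (pre w q).count c`; `count_pw`, `mem_pw`, `pw_succ`, `OX.symm`, `OX.kk`, `OX.kz`, `OB.ab`,
`ex_ea`, `ex_es`, `ex_ez`, `ex_kaba`, `flat_*`, `pen` in MWGX/Defs.lean.  Numbers: `i ≡ i' [MOD n]`; a
number `m ≥ 1` with `m ≡ i - i'` is `i + (n - 1) * i' + n`.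
-/

set_option autoImplicit false

namespace Pool.Agent.MWGX

open Pool.Agent.Helper14_MV Pool.Agent.Helper2_MV
open Pool.Agent.MWK (pre)
open Pool.Agent.MWF (gaml)
open Pool.Agent.MWGN (nn)
open Pool.Agent.MWGQ (pw Gn E0 A0 P0)
open Pool.Agent.MWGR (X It Kaba F1 Dm Ec Es Ea Al0 Rh FE)

/-! ### exponents and labels -/

/-- OXV (easy, uses MWGQ.OLR, MWGQ.CNT).  What `β` keeps.
Proof.  CNT for `(w, w')` and for `(w', w)` gives `c1`, `c2` and the last part.  `n0`, `n1`, `nc`: OLR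
with `c = d`. -/
def OxvStmt : Prop := ∀ (n : ℕ) (β : FIC), Gn n β → ¬ E0 n β → ∀ w w' : List ℕ, RR β w w' →
  OX w w' ∧ ∀ d, w.count d ≡ w'.count d [MOD n]

/-- FLX (easy-medium).  The exponents around a multiple letter may be changed modulo `n`.
Proof.  Claim 1: `P X^i a X^j R ~ P X^(i+n) a X^j R` for `i, j ≥ 1`: `It` with `p = P ++ X (i-1)`, `x = 0`,
`w = []`, `w' = [a]`, `q = X (j-1) ++ R` (`a` occurs twice since `a ∈ R`).  Claim 2: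
`~ P X^i a X^(j+n) R`: `It` with `w = [a]`, `w' = []`.  Induction on the multiples of `n`
(`Nat.ModEq`: `i' = i + n k` or `i = i' + n k`). -/
def FlxStmt : Prop := ∀ (n : ℕ) (θ : FIC), It n (RR θ) → ∀ (a i j i' j' : ℕ) (P R : List ℕ),
  1 ≤ i → 1 ≤ j → 1 ≤ i' → 1 ≤ j' → i ≡ i' [MOD n] → j ≡ j' [MOD n] → a ∈ R →
    RR θ (P ++ (X i ++ a :: (X j ++ R))) (P ++ (X i' ++ a :: (X j' ++ R)))

/-- CRX (medium, uses FLX).  `Dm d` changes the label of `a` by `d`.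
Proof.  `R = T ++ a :: R'`.  Choose `e, f` with `e ≡ i'`, `f ≡ j (mod n)`.  `Dm n d` under the substitution
`0 ↦ [0]`, `1 ↦ [a]`, `2 ↦ X f ++ T`, with `P ++ X e` in front and `R'` behind:
`P X^(e+n+d) a X^(n+f) R ~ P X^(e+n) a X^(n+d+f) R`.  `e + n + d ≡ i`, `n + f ≡ j`, `e + n ≡ i'`,
`n + d + f ≡ j'` (since `j' ≡ i + j - i' ≡ j + d`).  FLX on both sides (`n ≥ 1`, all exponents are at
least `1`). -/
def CrxStmt : Prop := ∀ (n : ℕ) (θ : FIC), 1 ≤ n → It n (RR θ) → ∀ d : ℕ, Dm n d (RR θ) →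
  ∀ (a i j i' j' : ℕ) (P R : List ℕ), 1 ≤ i → 1 ≤ j → 1 ≤ i' → 1 ≤ j' → i ≡ i' + d [MOD n] →
    i + j ≡ i' + j' [MOD n] → a ∈ R →
      RR θ (P ++ (X i ++ a :: (X j ++ R))) (P ++ (X i' ++ a :: (X j' ++ R)))

/-- DGR (medium, uses FLX).  The label differences form a group.
Proof.  `S = {d | Dm n d (RR θ)}`.  (1) `n ∈ S` and `Dm d ↔ Dm (d + n)`: FLX (`i = n + d`, `n + d + n`; the
words of `Dm` are `X (n+d) ++ 1 :: (X n ++ [2,1])`).  (2) `d, e ∈ S → d + e ∈ S`: `X e` in front of `Dm d`: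
`X^(n+d+e) 1 X^n 2 1 ~ X^(n+e) 1 X^(n+d) 2 1`; `Dm e` with `2 ↦ X d ++ [2]`:
`X^(n+e) 1 X^(n+d) 2 1 ~ X^n 1 X^(n+e+d) 2 1`.  (3) `0 ∈ S`.  Let `δ` be the least positive element
(`Nat.find`, `n ∈ S`).  Multiples of `δ` are in `S` (2).  If `d ∈ S`, `d = δ q + r`, `r < δ`: `d + (n-1) (δ q) =
r + n (δ q) ∈ S`, so `r ∈ S` by (1), so `r = 0`.  In particular `δ ∣ n`. -/
def DgrStmt : Prop := ∀ (n : ℕ) (θ : FIC), 1 ≤ n → It n (RR θ) → ∃ δ, Dl n θ δ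

/-- DML (easy-medium, uses CRX).  Two light letters.
Proof.  `d1 = i + (n-1) i'`: `i ≡ i' + d1 [MOD n]` and `δ ∣ d1` (since `i ≡ i' [MOD δ]`, `δ ∣ n`), so `Dm n d1`.
`j1 = i + j + (n-1) i' + n`: `i' + j1 ≡ i + j [MOD n]`.  CRX for `a` (`R = b :: (X k ++ T)`, `P = []`):
the word `X i' ++ a :: (X j1 ++ b :: (X k ++ T))`.  `d2 = j1 + (n-1) j'`: `j1 ≡ j' + d2 [MOD n]`, `δ ∣ d2`
(`i' + j1 ≡ i + j ≡ i' + j' [MOD δ]`).  CRX for `b` with `P = X i' ++ [a]`, `R = T`. -/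
def DmlStmt : Prop := ∀ (n : ℕ) (θ : FIC) (δ : ℕ), 1 ≤ n → It n (RR θ) → Dl n θ δ →
  ∀ (a b i j k i' j' k' : ℕ) (T : List ℕ), 1 ≤ i → 1 ≤ j → 1 ≤ k → 1 ≤ i' → 1 ≤ j' → 1 ≤ k' →
    a ∈ T → b ∈ T → i ≡ i' [MOD δ] → i + j ≡ i' + j' [MOD δ] → i + j + k ≡ i' + j' + k' [MOD n] →
      RR θ (X i ++ a :: (X j ++ b :: (X k ++ T))) (X i' ++ a :: (X j' ++ b :: (X k' ++ T)))

/-- NRW (medium, uses MWGQ.PWX).  Letters which occurred before: only the residues count.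
Proof.  (i) `d, e ∈ V`: `V d e R ~ V e d R`: by PWX (2) `d ~ d^(n+1)`, `e ~ e^(n+1)` (`V = V1 ++ d :: V2`), by
PWX (3) the powers commute, and back.  (ii) So `U W R ~ U W1 R` for every permutation `W1` of `W`
(`List.Perm` induction with the prefix as parameter).  (iii) `U d^k R ~ U d^k' R` for `k, k' ≥ 1`,
`k ≡ k'`, `d ∈ U` (PWX (2)).  Induction on the number of different letters of `W` (or: both words are `~`
to the product of the powers of the letters of `W.dedup`). -/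
def NrwStmt : Prop := ∀ (n : ℕ) (β : FIC), Gn n β → ∀ U W W' R : List ℕ, (∀ d ∈ W, d ∈ U) →
  (∀ d, (d ∈ W ↔ d ∈ W') ∧ W.count d ≡ W'.count d [MOD n]) →
    RR β (U ++ (W ++ R)) (U ++ (W' ++ R))

/-- LBV (medium, uses FLX, MWGQ.PWX, MWGQ.CNT).  `β` keeps the label modulo `δ` (literal form).
Proof.  CNT: `i + j ≡ i' + j'`, `1 + e ≡ 1 + e'`, so `e ≡ e'` (mod n).  Put `X n` in front and `3 ↦ X n ++ [3]`,
then `X ((n-1) i')` in front and `3 ↦ X f ++ [3]` with `j + f ≡ 0`: the exponents are `≥ 1`, on the left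
`≡ d, 0` and on the right `≡ 0, d` with `d = i + (n-1) i'` (`j' + f ≡ i - i'`).  Append `1^g` with
`e + g ≡ 1`, PWX (2): the tails become `1`.  FLX: `X^(n+d) 1 X^n 3 1 ~ X^n 1 X^(n+d) 3 1`, rename `3 ↦ 2`:
`Dm n d`.  So `δ ∣ i + (n-1) i'`, and `δ ∣ n`: `i ≡ i' [MOD δ]`. -/
def LbvStmt : Prop := ∀ (n : ℕ) (β : FIC) (δ : ℕ), Gn n β → It n (RR β) → Dl n β δ →
  ∀ i j e i' j' e' : ℕ, 1 ≤ e → 1 ≤ e' →
    RR β (X i ++ 1 :: (X j ++ 3 :: List.replicate e 1))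
      (X i' ++ 1 :: (X j' ++ 3 :: List.replicate e' 1)) → i ≡ i' [MOD δ]

/-- LBW (medium, uses OXV, LBV).  `β` keeps labels modulo `δ`.
Proof.  `w'` satisfies the same assumptions (OXV).  `RR.filter (· ∈ {d, q, s})` and `RR.sub` (`d ↦ [0]`,
`q ↦ [1]`, `s ↦ [3]`, other letters to `[]`).  All `d` and exactly one `q` are in front of `s`, so the
image of `w` is `X i ++ 1 :: (X j ++ 3 :: replicate e 1)` with `i = nn w d q`, `e ≥ 1`, in the same way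
`w'`.  (`d`, `q`, `s` are different by the counts.)  LBV. -/
def LbwStmt : Prop := ∀ (n : ℕ) (β : FIC) (δ : ℕ), Gn n β → ¬ E0 n β → It n (RR β) → Dl n β δ →
  ∀ w w' : List ℕ, RR β w w' → ∀ d q s : ℕ, w.count s = 1 → 2 ≤ w.count q → nn w q s = 1 →
    2 ≤ w.count d → nn w d s = w.count d → nn w d q ≡ nn w' d q [MOD δ]

/-- XCH (medium-strong, uses FLX, MWGQ.CNT, LBV, DML).  **An exchange in `β` gives the identity with
gap `c`**, `c` congruent to the difference of the labels.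
Proof.  CNT: `i + j + k ≡ i' + j' + k' (mod n)`.  Step 1: put `X n` in front and `3 ↦ X n ++ [3]`:
`X^(n+i) 1 X^j 2 X^(k+n) 3 T ~ X^(n+i') 2 X^j' 1 X^(k'+n) 3 T'`; `It` inserts `X n` behind the first
light letter (`w = [1]`, `w' = X j ++ [2]`, all letters occur twice): the exponents are `n + i, n + j,
n + k` and `n + i', n + j', n + k'`.  Step 2: labels: `RR.filter (· ∈ {0, 1, 3})`, LBV:
`i ≡ i' + j' [MOD δ]` (`n ≡ 0`); `RR.filter (· ∈ {0, 2, 3})` and `2 ↦ 1`, LBV: `i + j ≡ i' [MOD δ]`.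
Step 3: put `X ((n-1) i)` in front and `3 ↦ X e ++ [3]` with `e ≡ c - j - k (mod n)`.  Left side: exponents
`≡ 0, j, c - j`, so by DML (`0`; `0 + j ≡ c [MOD δ]`; total `c`) it is `~` to `X n 1 X(n+c) 2 X n 3 T`.
Right side: exponents `≡ i' - i, j', k' + c - j - k`: label of `2`: `i' - i ≡ j ≡ c [MOD δ]`, label of `1`:
`i' - i + j' ≡ 0 [MOD δ]`, total `≡ c (mod n)`: DML (`a = 2`, `b = 1`): `~ X(n+c) 2 X(n+(n-1)c) 1 X(n+c) 3 T'`
(total `3n + (n+1)c ≡ c`). -/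
def XchStmt : Prop := ∀ (n : ℕ) (β : FIC) (δ : ℕ), Gn n β → It n (RR β) → Dl n β δ →
  ∀ (i j k i' j' k' : ℕ) (T T' : List ℕ), 1 ∈ T → 2 ∈ T → 1 ∈ T' → 2 ∈ T' → 0 ∉ T → 3 ∉ T →
    0 ∉ T' → 3 ∉ T' →
    RR β (X i ++ 1 :: (X j ++ 2 :: (X k ++ 3 :: T)))
      (X i' ++ 2 :: (X j' ++ 1 :: (X k' ++ 3 :: T'))) → ∀ c : ℕ, j ≡ c [MOD δ] →
        RR β (X n ++ 1 :: (X (n + c) ++ 2 :: (X n ++ 3 :: T)))
          (X (n + c) ++ 2 :: (X (n + (n - 1) * c) ++ 1 :: (X (n + c) ++ 3 :: T')))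

/-- SPL (medium).  Literal form of the first block.
Proof.  `w = pre w 3 ++ 3 :: B` (`mem_split`), `3 ∉ B`, `0 ∉ B`.  `(pre w 3).filter P`: its letters are
`0`, `1` (once), `2` (once).  If `nn w 1 2 = 1` then `1` is in front of `2` (`2 ∈ pre w 3`, so
`pre w 2 = pre (pre w 3) 2`), otherwise `2` is in front of `1` (`nn w 1 2 ≤ nn w 1 3 = 1`).  Cut at the
first and at the second of them. -/
def SplStmt : Prop := ∀ w : List ℕ, w.count 3 = 1 → nn w 0 3 = w.count 0 → nn w 1 3 = 1 →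
  nn w 2 3 = 1 → ∀ P : ℕ → Bool, P 0 = true → P 1 = true → P 2 = true → P 3 = true →
    (∀ d, P d = true → d ≠ 0 → d ≠ 1 → d ≠ 2 → nn w d 3 = 0) →
      ∃ (i j k : ℕ) (B : List ℕ), w = pre w 3 ++ 3 :: B ∧ 0 ∉ B ∧ 3 ∉ B ∧
        (nn w 1 2 = 1 → i = nn w 0 1 ∧ i + j = nn w 0 2 ∧
          w.filter P = X i ++ 1 :: (X j ++ 2 :: (X k ++ 3 :: B.filter P))) ∧
        (nn w 1 2 ≠ 1 → i = nn w 0 2 ∧ i + j = nn w 0 1 ∧
          w.filter P = X i ++ 2 :: (X j ++ 1 :: (X k ++ 3 :: B.filter P)))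

/-- ESV (medium, uses OXV, MWGQ.CNT, SPL, XCH, NRW).  **An exchange of `a` and `b` in `β` gives
`Es c`.**
Proof.  `w'` satisfies the same assumptions (OXV).  `RR.filter (· ∈ {0,1,2,3})`, SPL for both words
(`P d = decide (d ≤ 3)`): the tails `T = B.filter P`, `T'` are words in `1`, `2`, both letters occur
(`count ≥ 2`, one in front of `3`).  XCH (`j = nn w 0 2 - nn w 0 1 ≡ c [MOD δ]`).  CNT: `T.count 1 ≡
T'.count 1`, the same for `2` (the whole words).  Append `1^f 2^g` with `T.count 1 + f ≡ 1`,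
`T.count 2 + g ≡ 1`; NRW (`U` = the part in front of the tail): both tails become `[1, 2]`. -/
def EsvStmt : Prop := ∀ (n : ℕ) (β : FIC) (δ : ℕ), Gn n β → ¬ E0 n β → It n (RR β) → Dl n β δ →
  ∀ w w' : List ℕ, RR β w w' → w.count 3 = 1 → 2 ≤ w.count 0 → nn w 0 3 = w.count 0 →
    2 ≤ w.count 1 → nn w 1 3 = 1 → 2 ≤ w.count 2 → nn w 2 3 = 1 → nn w 1 2 = 1 → nn w' 1 2 ≠ 1 →
      ∀ c : ℕ, nn w 0 2 ≡ nn w 0 1 + c [MOD δ] → Es n c (RR β)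

/-- EAT (medium, uses SPL).  Literal form of the words of `KK`.
Proof.  SPL with `P d = decide (d ≤ 5)` (`nn w 4 3 = 0`; `nn w 5 3 = 0`: `5 ∉ pre w 4` and `3 ∈ pre w 4`
because `4 ∉ pre w 3` (`pre_total`)).  `B` contains `4` and `5` once, `4` in front of `5`; in front of `4`
there is no `2` (`nn w 2 4 = 1 = nn w 2 3`) and at least one `1` (`a40`, `a41`), between `4` and `5` there
is a `2` (all `2` are in front of `5`, `count ≥ 2`), behind `5` there is no `2` and a `1` (`a5`).  `Ab w`: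
no `1` between `4` and `5`. -/
def EatStmt : Prop := ∀ w : List ℕ, KK w → ∃ (i j k e g : ℕ) (W : List ℕ), 1 ≤ e ∧ 1 ≤ g ∧ 2 ∈ W ∧
  (∀ d ∈ W, d = 1 ∨ d = 2) ∧ (Ab w ↔ 1 ∉ W) ∧
    (nn w 1 2 = 1 → i = nn w 0 1 ∧ i + j = nn w 0 2 ∧
      w.filter (fun d => decide (d ≤ 5)) = X i ++ 1 :: (X j ++ 2 :: (X k ++ 3 ::
        (List.replicate e 1 ++ 4 :: (W ++ 5 :: List.replicate g 1))))) ∧
    (nn w 1 2 ≠ 1 → i = nn w 0 2 ∧ i + j = nn w 0 1 ∧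
      w.filter (fun d => decide (d ≤ 5)) = X i ++ 2 :: (X j ++ 1 :: (X k ++ 3 ::
        (List.replicate e 1 ++ 4 :: (W ++ 5 :: List.replicate g 1)))))

/-- EAV (strong, uses EAT, XCH, MWGQ.PWX, MWGQ.CNT, NRW).  **An exchange of `a` and `b` in `β` gives
`Ea c`.**
Proof.  EAT for `w` (exponents `e, g`, word `W`) and for `w'` (`e', g'`, `W'`); `RR.filter (· ≤ 5)`; XCH with
`T = 1^e 4 W 5 1^g`, `T' = 1^e' 4 W' 5 1^g'`: `L 3 T ~ R 3 T'`, `L = X n 1 X(n+c) 2 X n`,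
`R = X(n+c) 2 X(n+(n-1)c) 1 X(n+c)`.  NRW: `W ~ 1^m 2^l`, `W' ~ 1^m' 2^l'` in these words
(`m = W.count 1`, ...).  (1) The tails can be made equal: the filter of `RR β w w'` on `{1, 3, 4, 5}` is
`1 3 1^e 4 1^m 5 1^g ~ 1 3 1^e' 4 1^m' 5 1^g'`; substitute `3 ↦ X(n+c) ++ [3]`, `5 ↦ 2^l' ++ [5]` and put
`X(n+c) 2 X(n+(n-1)c)` in front: `R 3 1^e' 4 1^m' 2^l' 5 1^g' ~ R 3 1^e 4 1^m 2^l' 5 1^g`.  `l ≡ l'` by CNT
(both `≥ 1`): NRW replaces `2^l'` by `2^l`.  So `L 3 T ~ R 3 T` with `T = 1^e 4 1^m 2^l 5 1^g`.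
(2) Standard exponents: substitute `4 ↦ 1^f ++ [4]` (`e + f ≡ 1`), `5 ↦ 2^h 1^k ++ [5]` (`l + h ≡ 1`,
`k = 0` if `m = 0`, otherwise `m + k ≡ 0`), append `1^g1` (`g + g1 ≡ 1`), NRW: `T` becomes
`1 4 2 5 1` if `m = 0`, and `1 4 1^n 2 5 1` if `m ≥ 1`.  If `m = 0` this is `Ea n c`.  If `m ≥ 1` then
`¬ Ab w` (EAT), so `F1` holds: `1 4 1^n 2 5 1 ~ 1 4 2 5 1` behind a word containing `1`: PWX (2): `1 ~ 1^(n+1)`
in front of `4` and behind `5`, `F1` with `0 ↦ [1]`, `2 ↦ [4]`, `3 ↦ [2, 5]`. -/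
def EavStmt : Prop := ∀ (n : ℕ) (β : FIC) (δ : ℕ), Gn n β → It n (RR β) → Dl n β δ →
  ∀ w w' : List ℕ, RR β w w' → KK w → KK w' → (F1 n (RR β) ∨ (Ab w ∧ Ab w')) → nn w 1 2 = 1 →
    nn w' 1 2 ≠ 1 → ∀ c : ℕ, nn w 0 2 ≡ nn w 0 1 + c [MOD δ] → Ea n c (RR β)

/-- EAK (easy).  `Ea c` implies `Kaba`.
Proof.  `RR.sub` with `0 ↦ []`, `1 ↦ [0]`, `2 ↦ [1]`, `3 ↦ [2]`, `4 ↦ [3]`, `5 ↦ [4]`. -/
def EakStmt : Prop := ∀ (n : ℕ) (β : FIC) (c : ℕ), Ea n c (RR β) → Kaba (RR β)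

/-- ABV (medium, uses MWGQ.PWX, OXV).  Without `F1` the empty block is kept.
Proof.  `w'` is in `KK` (OXV, `OX.kk`).  Suppose `Ab w`, `¬ Ab w'`.  Filter `{1, 4, 5}` (`nn w 5 4 = 0`):
`1^a 4 5 1^g ~ 1^a' 4 1^m 5 1^g'` with `a, a' ≥ 2`, `g, g', m ≥ 1`.  Substitute `5 ↦ 1^n ++ [5]`:
`1^a 4 1^n 5 1^g ~ 1^a' 4 1^(m+n) 5 1^g' ~ 1^a' 4 1^m 5 1^g'` (PWX (2)) `~ 1^a 4 5 1^g`.  Put `1^f` in front
(`a + f ≡ 2`), PWX (1): `1^(a+f) ~ 1^2`; append `1^h` (`g + h ≡ 2`), PWX (2): `1^(g+h) ~ 1^2`.  Rename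
`1 ↦ 0`, `4 ↦ 2`, `5 ↦ 3`: `F1`. -/
def AbvStmt : Prop := ∀ (n : ℕ) (β : FIC), Gn n β → ¬ E0 n β → ¬ F1 n (RR β) →
  ∀ w w' : List ℕ, RR β w w' → KK w → Ab w → Ab w'

/-- F1K (easy-medium, uses MWGQ.PWX).  `F1` and `F` imply `Kaba`.
Proof.  `0 1 2 0 3 1 4 0 ~ 0 1 2 0^(n+1) 3 1 4 0^(n+1)` (PWX (2)) `~ 0 1 2 0^(n+1) 3 0^n 1 4 0^(n+1)` (`F1`
with `2 ↦ [3]`, `3 ↦ [1, 4]`; `0^(n+1) = 0^(n-1) 0 0`) `~ 1 0 2 0^(n+1) 3 0^n 1 4 0^(n+1)` (`F` with `p = []`,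
`x = 0`, `y = 1`, `q = 2 0^(n+1) 3 0^(n-1)`, then `x`, `c = []`, `y`), and back (`0` occurs in front). -/
def F1kStmt : Prop := ∀ (n : ℕ) (β : FIC), Gn n β → F1 n (RR β) → MVO.Sys.F (RR β) →
  Kaba (RR β)

/-! ### steps (combinatorics of lists, no congruence) -/

/-- EXS (medium).  **Exchange: counts and simple letters.**  Write `C = A.count` etc.
Proof.  `w'.count d = w.count d + n c Z.count d` (`count_pw`; left: `(3n + c) Z`, right: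
`(3n + (n+1) c) Z`, note `(n - 1) * c + c = n * c`), and `d ∈ Z` implies both counts `≥ 3`.  Let
`w.count s = 1`: `s ∉ Z, A, B` (each occurs twice).  If `s ∈ p`: both `pre` are `pre p s`; if `s ∉ p`: both
are `p ++ (gL resp. gR) ++ pre R s` with `R = F A G B H`, so `nn w' d s = nn w d s + n c Z.count d`, and
if `d ∈ Z` both are `≥ 3`.  `nc`: the numbers of `d` not in front of `s` are equal if `s ∉ p`; if `s ∈ p`
and `d ∈ Z` both sides are false; if `s ∈ p`, `d ∉ Z` nothing changes.  `OB`: `s, t ∈ p`: the same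
words; `s, t ∉ p`: the difference of the two numbers does not change; `s ∈ p`, `t ∉ p`: equality means
that no `d` is between them, in particular `d ∉ Z` (and in the same way for `w'`). -/
def ExsStmt : Prop := ∀ (n c : ℕ) (p Z A B F G H w w' : List ℕ), 1 ≤ n →
  Ex n c p Z A B F G H w w' →
    OX w w' ∧ OB w w' ∧ ∀ d, w.count d ≡ w'.count d [MOD n]

/-- EXL (medium-strong).  **Exchange: labels.**
Proof.  `s ∉ Z, A, B`.  `R = F A G B H`.  `q ∈ p`: both `pre` are `pre p q`.  `q ∉ p`.  (i) `q ∈ Z`: `s ∈ p` is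
impossible (`nn w q s = 1`, `q ∉ p`), so `s ∈ R` and `nn w q s ≥ 3`: impossible.  (ii) `q ∉ Z, A, B`: both
are `p ++ (gL, gR) ++ pre R q` (or `q ∉ w`), the numbers differ by `n c Z.count d`.  (iii) `q ∈ A` or
`q ∈ B`: `s ∉ p`, so `s ∈ R`, and exactly one of `A`, `B` contains `q` (otherwise `nn w q s ≥ 2`).  `q ∈ A`:
`s ∈ F`, otherwise the second `A` is in front of `s` (`s` occurs once, `s ∉ A, B`).  So all of `A G B H`
is behind `s`, and `d ∉ A, B` because all `d` are in front of `s` (`nn w d s = w.count d`).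
`nn w d q = p.count d + n Z.count d`, `nn w' d q = p.count d + (n + c + n + (n-1) c) Z.count d`: the
difference is `(n + n c) Z.count d`.  `q ∈ B`: `s ∈ F` or `s ∈ G` (otherwise the second `B` is in front of
`s`).  `s ∈ F`: `d ∉ A, B` as before.  `s ∈ G`: then not all letters of `G` occur twice, so `H` contains
`A`; the second `B` and this `A` are behind `s`: `d ∉ A, B`.  `nn w d q = p.count d + (2n + c) Z.count d`,
`nn w' d q = p.count d + (n + c) Z.count d`. -/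
def ExlStmt : Prop := ∀ (n c : ℕ) (p Z A B F G H w w' : List ℕ), 1 ≤ n →
  Ex n c p Z A B F G H w w' → Gd A G H w → ∀ d q s : ℕ, w.count s = 1 → q ≠ s → d ≠ s →
    nn w q s = 1 → nn w d s = w.count d → nn w d q ≡ nn w' d q [MOD n]

/-- EXO (medium-strong, uses EXS).  **Exchange: the order of two light letters.**
Proof.  By EXS `nn w' q1 s = nn w' q2 s = 1` too.  `s ∉ Z, A, B`.  `q2 ∈ w, w'` and `q2 ∈ pre w s`, so
`nn w q1 q2 ≤ nn w q1 s = 1`, the same in `w'`.  Part 1: `nn w q1 q2 = 1`, `nn w' q1 q2 = 0`.  `q2 ∉ p`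
(otherwise both `pre` are `pre p q2`), `q1 ∉ p` (otherwise `nn w' q1 q2 ≥ 1`).  `s ∉ p`
(`nn w q1 s = 1`).  `q1, q2 ∉ Z` (otherwise `nn ≥ 3`).  If `q1 ∉ A` and `q1 ∉ B`, then its first
occurrence is in `R`, and `q2`, which is behind it in `w`, is not in `gL`, so not in `A, B, Z`, and
`pre w' q2 = p ++ gR ++ pre R q2` contains `q1` as well: contradiction.  Each of `q1, q2` is in at most one
of `A`, `B` (`nn .. s = 1`, `s ∈ R`).  `q1 ∈ A`: `q2 ∈ A` or (`q2 ∉ A, B`) would give `q1` in front of `q2` in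
`w'`; so `q2 ∈ B`.  `q1 ∈ B`: `q2 ∈ A` is impossible (`q2` would be in front in `w`), and `q2 ∈ B` or
`q2 ∉ A, B` give `q1` in front of `q2` in `w'`.  So `q1 ∈ A`, `q2 ∈ B`.  `s ∈ F`: otherwise the second `A ∋ q1`
is in front of `s`.  For `d` with all occurrences in front of `s`: `d ∉ A, B` (both occur behind `F`),
`nn w d q1 = p.count d + n Z.count d`, `nn w d q2 = p.count d + (2n + c) Z.count d`.
Part 2: in the same way `q1 ∈ B`, `q2 ∈ A`, `s ∈ F` (the second `A ∋ q2`), `nn w' d q1 = p.count d +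
(n + c) Z.count d`, `nn w' d q2 = p.count d + (n + c + n + (n-1) c) Z.count d`. -/
def ExoStmt : Prop := ∀ (n c : ℕ) (p Z A B F G H w w' : List ℕ), 1 ≤ n →
  Ex n c p Z A B F G H w w' → ∀ q1 q2 s : ℕ, w.count s = 1 → q1 ≠ s → q2 ≠ s →
    nn w q1 s = 1 → nn w q2 s = 1 →
      (nn w q1 q2 = 1 → nn w' q1 q2 ≠ 1 → q1 ∈ A ∧ q2 ∈ B ∧ s ∈ F ∧
        ∀ d, d ≠ s → nn w d s = w.count d → nn w d q2 ≡ nn w d q1 + c * Z.count d [MOD n]) ∧
      (nn w' q1 q2 = 1 → nn w q1 q2 ≠ 1 → q1 ∈ B ∧ q2 ∈ A ∧ s ∈ F ∧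
        ∀ d, d ≠ s → nn w d s = w.count d → nn w' d q2 + c * Z.count d ≡ nn w' d q1 [MOD n])

/-- DMI (medium).  **Steps of `Dm`.**
Proof.  The words have the same letters.  `s` simple: `s ∉ Z, A`; `s ∈ p` or `s ∈ R = F A H`: `nn w d s =
nn w' d s`; `OX` and `OB`.  Order: if `s ∈ p` then `q1, q2 ∈ p` and both `pre` are `pre p q2`.  Otherwise
`s ∈ R` and `q1 ∉ Z` (it would occur at least twice in front of `s`); the words without the letters of `Z`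
are equal: `pre w q2`, `pre w' q2` for `q2 ∈ p`, `q2 ∈ Z` (first `Z`, `n ≥ 1`), `q2 ∈ A`, `q2 ∈ R`: in all cases
the same number of `q1`.  Labels: `q ∈ p`, `q ∈ Z`: the same; `q ∈ A` (not in `p, Z`): the difference is
`m Z.count d`, divisible by `g`; otherwise the same number. -/
def DmiStmt : Prop := ∀ (n m : ℕ) (p Z A F H w w' : List ℕ), 1 ≤ n →
  w = p ++ (pw (n + m) Z ++ (A ++ (pw n Z ++ (F ++ (A ++ H))))) →
  w' = p ++ (pw n Z ++ (A ++ (pw (n + m) Z ++ (F ++ (A ++ H))))) →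
    OX w w' ∧ OB w w' ∧
      (∀ q1 q2 s, w.count s = 1 → q1 ≠ s → q2 ≠ s → nn w q1 s = 1 → nn w q2 s = 1 →
        nn w q1 q2 = nn w' q1 q2) ∧
      (∀ g, g ∣ m → ∀ d q, nn w d q ≡ nn w' d q [MOD g])

/-- INS (medium).  **Insertion of `A^n` behind `A A M`.**
Proof.  `w'.count d = w.count d + n A.count d`, and if `d ∈ A` both are `≥ 2`.  For every `q` with its
first occurrence in `p`, `A`, `M` both `pre w q` are equal; otherwise (`q ∈ R` or `q ∉ w`)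
`nn w' d q = nn w d q + n A.count d`, and if `d ∈ A` then both are `≥ 2`.  This gives the second and the
third claim and `n0`, `n1`.  `nc`: `s` simple, so `s ∉ A`.  `s ∈ R` (not in `p, M`): both numbers grow by the
same amount.  `s ∈ p`: if `d ∈ A` both equalities fail (`A` is behind `s`), if `d ∉ A` nothing changes.
`s ∈ M`: then the second alternative of the assumption fails for `s`, so `d ∈ A → d ∈ R`, and `d ∈ R`
behind `s`: both equalities fail; `d ∉ A`: nothing changes. -/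
def InsStmt : Prop := ∀ (n : ℕ) (p A M R w w' : List ℕ), w = p ++ (A ++ (A ++ (M ++ R))) →
  w' = p ++ (A ++ (A ++ (M ++ (pw n A ++ R)))) →
    ((∀ d ∈ A, d ∈ R) ∨ (∀ d ∈ M, 2 ≤ w.count d)) →
      OX w w' ∧ (∀ d q, nn w d q ≡ nn w' d q [MOD n]) ∧
        (∀ d q, nn w d q = 1 ↔ nn w' d q = 1)

/-- KES (easy-medium).  In the words of `KK`, `Ab` no factor behind `3` without simple letters contains
`a` and `b`.
Proof.  Suppose `1, 2 ∈ E`.  `pre w 3 = pre P 3`, `(pre P 3).count 2 = 1`.  `4 ∈ P` or `4 ∈ Q`.  `4 ∈ Q`, `4 ∉ P`: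
`pre w 4` begins with `P ++ E`, so `nn w 2 4 ≥ 2`, contradiction to `b4`.  So `4 ∈ P`.  `5 ∈ Q`, `5 ∉ P`: `pre w 5`
begins with `P ++ E` and `pre w 4 = pre P 4`, so `nn w 1 5 ≥ nn w 1 4 + 1`, contradiction to `Ab`.  So
`5 ∈ P`, `pre w 5 = pre P 5`, and the `2 ∈ E` is behind `5`: contradiction to `b5`. -/
def KesStmt : Prop := ∀ w P E Q : List ℕ, w = P ++ (E ++ Q) → KK w → Ab w → 3 ∈ P → 4 ∉ E →
  5 ∉ E → ¬ (1 ∈ E ∧ 2 ∈ E)

/-- ZES (easy-medium).  The same for `KZ`, `Az`.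
Proof.  Suppose `1, 2 ∈ E`.  `5 ∉ P`: otherwise `pre w 5 = pre P 5` and `1 ∈ E` is behind it (`a5`).  `4 ∈ P`:
then `pre w 4 = pre P 4` and `1 ∈ E` is behind it: contradiction to `Az`.  `4 ∉ P`: `4 ∉ E`, so `pre w 4`
begins with `P ++ E`; `(pre P 3).count 2 = 1` and `2 ∈ E`, so `nn w 2 4 ≥ 2`, contradiction to `bz`. -/
def ZesStmt : Prop := ∀ w P E Q : List ℕ, w = P ++ (E ++ Q) → KZ w → Az w → 3 ∈ P → 4 ∉ E →
  ¬ (1 ∈ E ∧ 2 ∈ E)

/-- KZX (medium-strong, uses EXS).  Exchanges (all letters of `G` twice) keep `KZ` and `Az`.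
Proof.  One direction, the other one is the same.  `s = 5`, `z = 4`; `3, 5 ∉ Z, A, B, G`.  By EXS and
`OX.kz` it is enough: `nn w' 1 4 ≠ 1`, `nn w' 2 4 = 1`, `Az w'`.  `z ∈ p`: both `pre` are `pre p z`; `Az w` says
that no `1` is behind, so `1 ∉ Z, A, B`, and the count of `1` does not change.  `z ∉ p`: `z ∉ Z`
(otherwise, since `5 ∈ R`, `nn w z 5 ≥ 3`; `5 ∈ p` is impossible since `nn w z 5 = 1`).
(i) `z ∉ A, B`: `pre = p ++ (gL, gR) ++ pre R z`; `2 ∈ Z` would give `nn w 2 4 ≥ 3`; so `nn w 2 4` does not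
change.  `1 ∈ Z`: both numbers `≥ 3`; `1 ∉ Z`: `nn w 1 4` does not change; the `1` which are not in front
of `z` are those of the same rest of `R`, so `Az` is kept.  (ii) `z ∈ A` or `z ∈ B`: exactly one of them,
`5 ∈ R`, and `5 ∈ F` (`5 ∈ H` or `5 ∈ G`: `5 ∉ G`; `5 ∈ H` gives two `z` in front of `5`).  So `A G B H` is
behind `5` and `1, 2 ∉ A, B` (`a5`, `b5`).  `3 ∈ p` (`z3`: `3` is in front of the first `z`, which is in the
exchanged part, and `3 ∉ Z, A, B`).  `2 ∉ Z`: one `2` is in `pre p 3`, and a power `Z^n`, `n ≥ 1`, is in front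
of `z`: `nn w 2 4 ≥ 2` otherwise (in both words).  `1 ∉ Z`: a power of `Z` is behind `z` in both words,
contradiction to `Az w`.  So all numbers are those of `p`. -/
def KzxStmt : Prop := ∀ (n c : ℕ) (p Z A B F G H w w' : List ℕ), 1 ≤ n →
  Ex n c p Z A B F G H w w' → (∀ d ∈ G, 2 ≤ w.count d) →
    (KZ w → Az w → KZ w' ∧ Az w') ∧ (KZ w' → Az w' → KZ w ∧ Az w)

/-- KZV (easy-medium, uses OXV, MWGQ.TLR).  `β` keeps `KZ` and `Az`.
Proof.  `OX.kz`.  `nn w' 2 4 = 1`: TLR, third part, `c = 2`, `z = 4`, `s = 5`, `t = 3`.  `nn w' 1 4 ≠ 1`: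
otherwise TLR for `(w', w)`, `c = 1` (the assumptions hold for `w'` by OXV) gives `nn w 1 4 = 1`.  `Az`: TLR,
first part, `c = 1`. -/
def KzvStmt : Prop := ∀ (n : ℕ) (β : FIC), Gn n β → ¬ E0 n β → ¬ P0 n β → ∀ w w' : List ℕ,
  RR β w w' → KZ w → KZ w' ∧ (¬ A0 n β → Az w → Az w')

/-- SKK (easy-medium).  The words of the pentagons are in the classes.
Proof.  Computation (`pre`, `count` of explicit lists, `List.count_replicate`).  `nn w 0 1 = n`,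
`nn w 0 2 = 2n + 1`. -/
def SkkStmt : Prop := ∀ (n δ : ℕ), 1 ≤ n → δ ∣ n → ∀ u v : List ℕ,
  u = X n ++ 1 :: (X (n + 1) ++ 2 :: (X n ++ [3, 1, 4, 2, 5, 1])) →
  v = X (n + 1) ++ 2 :: (X (n + (n - 1) * 1) ++ 1 :: (X (n + 1) ++ [3, 1, 4, 2, 5, 1])) →
    KK u ∧ Ab u ∧ nn u 1 2 = 1 ∧ Lb δ u ∧ nn v 1 2 = 0

/-- SKZ (easy-medium).  The same for `KZ`. -/
def SkzStmt : Prop := ∀ (n δ : ℕ), 1 ≤ n → δ ∣ n → ∀ u v : List ℕ,
  u = X n ++ 1 :: (X (n + 1) ++ 2 :: (X n ++ [3, 1, 4, 2, 5, 4])) →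
  v = X (n + 1) ++ 2 :: (X (n + (n - 1) * 1) ++ 1 :: (X (n + 1) ++ [3, 1, 4, 2, 5, 4])) →
    KZ u ∧ Az u ∧ nn u 1 2 = 1 ∧ Lb δ u ∧ nn v 1 2 = 0

/-! ### implications -/

/-- EI1 (medium, uses CRX).  `Dm 1` and `Kaba` imply `Ea 1`.
Proof.  `T = [3,1,4,2,5,1]`.  `X n 1 X(n+1) 2 X n T ~ X n 1 X n 2 X(n+1) T` (CRX for the letter `2`,
`P = X n ++ [1]`, `d = 1`) `~ X n 1 2 X(n+1) T` (`It` backwards: `p = X (n-1)`, `x = 0`, `w = [1]`, `w' = [2]`)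
`~ X n 2 1 X(n+1) T` (`Kaba` with `0 ↦ [1]`, `1 ↦ [2]`, `2 ↦ X(n+1) ++ [3]`, `3 ↦ [4]`, `4 ↦ [5]`, `X n` in front)
`~ X n 2 X n 1 X(n+1) T` (`It`) `~ X(n+1) 2 X(n+(n-1)) 1 X(n+1) T` (CRX for `2`, `P = []`, `d = 1`,
`(n+1) + (2n-1) ≡ n + n`). -/
def Ei1Stmt : Prop := ∀ (n : ℕ) (θ : FIC), 1 ≤ n → It n (RR θ) → Dm n 1 (RR θ) → Kaba (RR θ) →
  Ea n 1 (RR θ)

/-- EI2 (easy-medium, uses MWGQ.PWX).  `F1` and `Es c` imply `Ea c`.
Proof.  For every word `U ∋ 1`: `U 3 1 4 2 5 1 ~ U 3 1^(n+1) 4 2 5 1^(n+1)` (PWX (2), in `β`)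
`~ U 3 1^(n+1) 4 1^n 2 5 1^(n+1)` (`F1` with `0 ↦ [1]`, `2 ↦ [4]`, `3 ↦ [2,5]`) `~ U 3 1 4 1^n 2 5 1`.  `Es c` with
`3 ↦ 3 1 4 1^(n-1)`, `[5, 1]` behind.  And back. -/
def Ei2Stmt : Prop := ∀ (n : ℕ) (β θ : FIC), Gn n β → β ≤ θ → F1 n (RR θ) → ∀ c : ℕ,
  Es n c (RR θ) → Ea n c (RR θ)

/-- EI3 (easy-medium, uses MWGQ.PWX).  `Al0` and `Es c` imply `Ez c`.
Proof.  For every word `U ∋ 1`: `U 3 1 4 2 5 4 ~ U 3 1^(n+1) 4 2 5 4` (PWX (2)) `~ U 3 1^(n+1) 4 1^n 2 5 4`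
(`Al0` with `0 ↦ [1]`, `1 ↦ [4]`, `2 ↦ [2,5]`) `~ U 3 1 4 1^n 2 5 4`.  `Es c` with `3 ↦ 3 1 4 1^(n-1)`, `[5, 4]`
behind.  And back. -/
def Ei3Stmt : Prop := ∀ (n : ℕ) (β θ : FIC), Gn n β → β ≤ θ → Al0 n (RR θ) → ∀ c : ℕ,
  Es n c (RR θ) → Ez n c (RR θ)

/-- EAM (medium, uses FLX, DML).  Multiples and residues of the gap.
Proof.  (1) Substitute `0 ↦ X k` in `Ea n c` (`k ≥ 1`), change the exponents modulo `n` (FLX with
`P = []` and with `P = X i ++ [1]`): `k n ≡ n`, `k (n + c) ≡ n + k c`, `k (n + (n-1) c) ≡ n + (n-1) (k c)`.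
(2) Substitute `3 ↦ X e ++ [3]` with `e ≡ c' - c (mod n)`; left side: exponents `n, n + c, n + e`, DML:
`n, n + c', n`; right side: letters `2, 1`, exponents `n + c, n + (n-1) c, n + c + e`, DML:
`n + c', n + (n-1) c', n + c'` (labels `c ≡ c'`, `n c ≡ n c' [MOD δ]`, totals `≡ c' (mod n)`). -/
def EamStmt : Prop := ∀ (n : ℕ) (θ : FIC), 1 ≤ n → It n (RR θ) → ∀ c : ℕ, Ea n c (RR θ) →
  (∀ k, 1 ≤ k → Ea n (k * c) (RR θ)) ∧
    (∀ δ, Dl n θ δ → ∀ c', c ≡ c' [MOD δ] → Ea n c' (RR θ))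

/-- EI4 (easy-medium, uses DGR, EAM).  `Dm r` and `Ea q` for coprime `q`, `r` imply `Ea 1`.
Proof.  `δ` of DGR divides `r`.  `k ≥ 1` with `k q ≡ 1 [MOD r]`, so `[MOD δ]`.  EAM (1), then (2). -/
def Ei4Stmt : Prop := ∀ (n : ℕ) (θ : FIC) (q r : ℕ), 1 ≤ n → 1 ≤ r → Nat.Coprime q r →
  It n (RR θ) → Dm n r (RR θ) → Ea n q (RR θ) → Ea n 1 (RR θ)

/-- NTH (easy-medium).  Number theory.
Proof.  `g = gcd c δ`.  A prime divisor of `g` and `r` divides `gcd r δ` and `c`, so `1`: so `g` and `r` are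
coprime, `g ∣ δ ∣ q r`, so `g ∣ q`.  `c x ≡ g [MOD δ]` has a solution (`Nat.gcd_eq_gcd_ab`, or
`Nat.exists_mul_emod_eq_...`), multiply by `q / g`. -/
def NthStmt : Prop := ∀ n q r δ c : ℕ, 1 ≤ n → q * r = n → Nat.Coprime q r → δ ∣ n →
  c ≡ 1 [MOD Nat.gcd r δ] → ∃ k, 1 ≤ k ∧ k * c ≡ q [MOD δ]

/-! ### the pentagons -/

/-- PN1 (medium, uses DGR, OXV, LBW, EAV, EAK, ABV, F1K, EXS, EXL, EXO, DMI, SKK, EI1).
Proof.  Suppose neither.  `δ` of DGR, `¬ δ ∣ 1`.  `¬ F1` (F1K).  `Kb w := KK w ∧ Ab w ∧ nn w 1 2 = 1`,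
`Kc w := KK w ∧ Ab w ∧ Lb δ w`.  `β ≤ gaml Kb` (`MWF.le_gaml`): OXV, `OX.kk`, ABV; order: otherwise EAV with
`c = nn w 0 2 - nn w 0 1` (`1` in front of `2`, `count_pre_mono`) gives `Ea c`, so `Kaba` (EAK).
`β ≤ gaml Kc`: LBW for `(d, q, s) = (0, 1, 3)` and `(0, 2, 3)`.  Ρ, σ, τ as in the frame `pen`:
(σ) `Dm n 1 (RR (gaml Kb))`: `MWF.RR_gaml`, `flat_dl`, `flat_dr`, DMI.  (τ) `Ea n 1 (RR (gaml Kc))`: `ex_ea`,
EXS, `OB.ab`, EXL for `q = 1, 2` (`s = 3`, `d = 0`; `Gd` by the second alternative; `δ ∣ n`), for the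
converse direction `OX.symm`.  (ρ) `Kaba` in `gaml Kc` and in `gaml (Kb ∧ Kc)`: `ex_kaba`, EXS, EXL; order:
if it changes EXO (`Z = []`, `c = 0`, `s = 3`, `d = 0`) gives `nn w 0 2 ≡ nn w 0 1 [MOD n]`, with `Lb δ`:
`δ ∣ 1`.  `θ = FIC.sup (..) (gaml Kb)`: EI1 (`It` holds above `β`): `(u, v)` of SKK is in `θ`.  `pen`: `Kb v`,
but `nn v 1 2 = 0`. -/
def Pn1Stmt : Prop := ∀ (n : ℕ) (β : FIC), ModF β → Gn n β → ¬ E0 n β → It n (RR β) →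
  MVO.Sys.F (RR β) → Dm n 1 (RR β) ∨ Kaba (RR β)

/-- PN2 (medium, uses DGR, OXV, LBW, ESV, ABV, EXS, EXL, EXO, INS, KES, SKK, EI2).
Proof.  Suppose neither.  `δ` of DGR.  `Kb w := KK w ∧ Lb δ w ∧ nn w 1 2 = 1`,
`Kc w := KK w ∧ Ab w ∧ Lb δ w`.  `β ≤ gaml Kb`: OXV, LBW; order: otherwise ESV with `c = 1` gives `Es 1`.
`β ≤ gaml Kc`: ABV, LBW.  (σ) `F1 n (RR (gaml Kb))`: `flat_fl`, `flat_fr`, INS (`A = f 0`, `M = f 2`,
`R = f 3 ++ ..`, first alternative).  (τ) `Ea n 1 (RR (gaml Kc))` as in PN1.  (ρ) `Es n 1` in `gaml Kc` and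
in `gaml (Kb ∧ Kc)`: `ex_es` (`G = []`, `Gd` first alternative), EXS, EXL; order: if it changes, EXO:
`1, 2 ∈ A ∪ B` and `3 ∈ F`; KES with `E = A ++ B`, `P = p ++ gL ++ F` (for the converse direction `gR`),
`4, 5 ∉ A, B` since they occur once: contradiction.  EI2 in `θ`, SKK, `pen`. -/
def Pn2Stmt : Prop := ∀ (n : ℕ) (β : FIC), ModF β → Gn n β → ¬ E0 n β → It n (RR β) →
  F1 n (RR β) ∨ Es n 1 (RR β)

/-- RHP (easy, uses MWGQ.PWX).  `Rh` and `P0` are equivalent.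
Proof.  `P0` with `3 ↦ [0, 3]` is `Rh`.  `Rh` with `3 ↦ 0^(n-1) ++ [3]`: `0 2 1 0^(n+1) 3 1 ~
0 2 0^n 1 0^(n+1) 3 1`, PWX (2): `0^(n+1) ~ 0`. -/
def RhpStmt : Prop := ∀ (n : ℕ) (β : FIC), Gn n β → (P0 n β ↔ Rh n (RR β))

/-- PN3 (medium, uses DGR, OXV, LBW, ESV, RHP, KZV, KZX, EXL, EXO, INS, ZES, SKZ, EI3).
Proof.  Suppose none (`A0 n β` is `Al0 n (RR β)`, `P0` by RHP).  `δ` of DGR.
`Kb w := KZ w ∧ Lb δ w ∧ nn w 1 2 = 1`, `Kc w := KZ w ∧ Az w ∧ Lb δ w`.  `β ≤ gaml Kb`: KZV, LBW; order: ESV with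
`c = 1`.  `β ≤ gaml Kc`: KZV, LBW.  (σ) `Al0 n (RR (gaml Kb))`: `flat_al`, `flat_ar`, INS (`A = f 0`,
`M = f 1`, `R = f 2 ++ (f 1 ++ q)`, second alternative), `OX.kz`.  (τ) `Ez n 1 (RR (gaml Kc))`: `ex_ez`, KZX
(`G = f 4`, its letters occur twice), EXL (first alternative of `Gd`).  (ρ) `Es n 1` in `gaml Kc` and
`gaml (Kb ∧ Kc)`: `ex_es`, KZX (`G = []`), EXL; order: EXO gives `1, 2 ∈ A ∪ B`, `3 ∈ F`, ZES with
`E = A ++ B`; `4 ∉ A, B`: `A, B` occur in front of `3` and `nn w 4 3 = 0`.  EI3 in `θ`, SKZ, `pen`. -/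
def Pn3Stmt : Prop := ∀ (n : ℕ) (β : FIC), ModF β → Gn n β → ¬ E0 n β → It n (RR β) →
  Es n 1 (RR β) ∨ Al0 n (RR β) ∨ Rh n (RR β)

/-- PN4 (medium, uses DGR, OXV, LBW, EAV, ABV, EAM, EXS, EXL, EXO, DMI, SKK, EI4, NTH).
Proof.  Suppose neither.  `δ` of DGR.  `Q w := F1 n (RR β) ∨ Ab w`.  `g = gcd r δ`.
`Kb w := KK w ∧ Q w ∧ Lb g w ∧ nn w 1 2 = 1`, `Kc w := KK w ∧ Q w ∧ Lb δ w`.  `β` keeps `Q` on `KK` (ABV if not
`F1`).  `β ≤ gaml Kb`: LBW (`g ∣ δ`); order: otherwise EAV with `c = nn w 0 2 - nn w 0 1`, `c ≡ 1 [MOD g]`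
(`F1` or both `Ab`); NTH: `k c ≡ q [MOD δ]`, EAM (1), (2): `Ea q`.  (σ) `Dm n r (RR (gaml Kb))`: DMI with
`g ∣ r`.  (τ) `Ea n 1 (RR (gaml Kc))` as in PN1.  (ρ) `Ea n q` in `gaml Kc` and `gaml (Kb ∧ Kc)`: as (τ);
order: EXO with `Z = f 0`, gap `q`, `d = 0`: `1 ≡ q z` or `1 + q z ≡ 0 [MOD δ]`, `z = (f 0).count 0`: `δ` and `q`
are coprime, `δ ∣ q r`, so `δ ∣ r`, `Dm r`: contradiction.  EI4 in `θ` (`1 ≤ r`), SKK, `pen`. -/
def Pn4Stmt : Prop := ∀ (n : ℕ) (β : FIC), ModF β → Gn n β → ¬ E0 n β → It n (RR β) →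
  ∀ q r : ℕ, q * r = n → Nat.Coprime q r → Dm n r (RR β) ∨ Ea n q (RR β)

/-- DI2 (medium, uses CRX, NRW).  `Dm 1` implies `I2`, `It` implies `I1`.
Proof.  `I1`: `It` with `w = []`: `p x c x q ~ p x x^n c x q`, and `x :: x^n = x^(n+1)`.  `I2`: by
induction on `c` it is enough to move `x` to the left over the last letter `z` of `c = c' ++ [z]`:
`p x c' z x d x q ~ p x c' x z d x q` (letters of `c'`, `z`, `d` occur twice).  `z = x`: equal words.  If `z`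
occurs in `V = p x c'`: NRW with `U = V`, `W = [z, x]`.  Otherwise `z ∈ R = d x q`.  `It` with `w = c'`,
`w' = [z]` (between the `x` in front of `c'` and the `x` behind `z`): `V z x R ~ V x^n z x R`; NRW:
`~ V x^n z x^(n+1) R`.  CRX with `d = 1`, `(i, j) = (n+1, n)`, `(i', j') = (n, n+1)`, read backwards (CRX is
written for the letter `0`: apply `RR.sub` with the transposition of `0` and `x`):
`~ V x^(n+1) z x^n R`.  Remove `x^n` behind `z`: `It` with `w = [z]`, `w' = d` (between the last `x` in front of `z`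
and the `x` behind `d`): `~ V x^(n+1) z d x q`, NRW: `~ V x z d x q`. -/
def Di2Stmt : Prop := ∀ (n : ℕ) (β : FIC), Gn n β → It n (RR β) →
  MWZ.I1 n (RR β) ∧ (Dm n 1 (RR β) → MWZ.I2 (RR β))

/-- REG (easy, uses PN1, PN2, PN3, PN4, RHP, DI2).  **The region.**
Proof.  `Dm 1`: `LitM` (DI2, `Gn.per`, `Gn.gm`, `Gn.c`).  Otherwise `Kaba` (PN1), `hall` (PN4), and `fe`: if
`Es 1` the assumption `hfe`, otherwise `F1` (PN2) and `Al0` or `Rh` (PN3). -/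
def RegStmt : Prop := ∀ (n : ℕ) (β : FIC), ModF β → Gn n β → ¬ E0 n β → It n (RR β) →
  MVO.Sys.F (RR β) → (Es n 1 (RR β) → FE n 1 (RR β)) →
    MWGP.LitM n (RR β) ∨ MWGR.Reg n (RR β)

end Pool.Agent.MWGX
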